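import Pool.Agent.Lib.MP_00289a_lc_h67.Defs

/-!
# Forms that are symmetric in groups of blocks of variables
-/

open MvPolynomial

namespace Pool.Agent.Lib.MP_00289a_lc_h67

/-- The variables are labelled by `e`: the label `⟨g, (i, κ)⟩` stands for the `κ`-th variable of the
`i`-th block of the group `g`; the group `g` has `N g` blocks of `q` variables each. This is the
permutation of the variables which moves the `i`-th block of each group `g` to its block `π g i`. -/
def permBlocks {σ : Type} {G q : ℕ} {N : Fin G → ℕ} (e : σ ≃ Σ g : Fin G, Fin (N g) × Fin q)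
    (π : ∀ g, Equiv.Perm (Fin (N g))) : Equiv.Perm σ :=
  (e.trans (Equiv.sigmaCongrRight fun g => (π g).prodCongr (Equiv.refl (Fin q)))).trans e.symm

/-- `f` is invariant under all permutations of the blocks inside each group. -/
def BlockSymmetric {σ : Type} {G q : ℕ} {N : Fin G → ℕ} (e : σ ≃ Σ g : Fin G, Fin (N g) × Fin q)
    (f : MvPolynomial σ ℂ) : Prop :=
  ∀ π : ∀ g, Equiv.Perm (Fin (N g)), rename (permBlocks e π) f = f

end Pool.Agent.Lib.MP_00289a_lc_h67
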