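import Mathlib

/-!
# Waring rank, border Waring rank and the classes VWaring

Definitions used by the hand-ins for `MP_00289a_lc`.
-/

open MvPolynomial Filter Topology

namespace Pool.Agent.Lib.MP_00289a_lc_h67

/-- The linear form with coefficient vector `a`. -/
noncomputable def linForm {σ : Type} [Fintype σ] (a : σ → ℂ) : MvPolynomial σ ℂ :=
  ∑ s, a s • X s

/-- `f` is a sum of `r` polynomials `ℓ ^ d` with `ℓ` a linear form. -/
def IsSumOfPowers {σ : Type} [Fintype σ] (d r : ℕ) (f : MvPolynomial σ ℂ) : Prop :=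
  ∃ a : Fin r → σ → ℂ, f = ∑ i, linForm (a i) ^ d

/-- The Waring rank of `f`, as a form of degree `d`: the least `r` such that `f` is a sum of `r`
polynomials `ℓ ^ d` with `ℓ` a linear form (`⊤` if there is none). -/
noncomputable def waringRank {σ : Type} [Fintype σ] (d : ℕ) (f : MvPolynomial σ ℂ) : ℕ∞ :=
  ⨅ (r : ℕ) (_ : IsSumOfPowers d r f), (r : ℕ∞)

/-- The border Waring rank of `f`, as a form of degree `d`: the least `r` such that `f` is the
limit (coefficient by coefficient) of a sequence of forms `g k` of degree `d` with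
`waringRank d (g k) ≤ r`. -/
noncomputable def borderWaringRank {σ : Type} [Fintype σ] (d : ℕ) (f : MvPolynomial σ ℂ) : ℕ∞ :=
  ⨅ (r : ℕ) (_ : ∃ g : ℕ → MvPolynomial σ ℂ,
    (∀ k, (g k).IsHomogeneous d ∧ waringRank d (g k) ≤ r) ∧
      ∀ α, Tendsto (fun k => coeff α (g k)) atTop (𝓝 (coeff α f))), (r : ℕ∞)

/-- A p-family: forms `form n` of degree `deg n` in the variables indexed by `Var n`, with degree
and number of variables bounded by a polynomial in `n`. -/
structure PFamily where
  /-- the index set of the variables of the `n`-th form -/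
  Var : ℕ → Type
  /-- finiteness of the index sets -/
  fin : ∀ n, Fintype (Var n)
  /-- the degree of the `n`-th form -/
  deg : ℕ → ℕ
  /-- the forms -/
  form : ∀ n, MvPolynomial (Var n) ℂ
  /-- the `n`-th form is homogeneous of degree `deg n` -/
  homogeneous : ∀ n, (form n).IsHomogeneous (deg n)
  /-- polynomial bounds -/
  bounded : ∃ s : ℕ, ∀ n, Fintype.card (Var n) ≤ n ^ s + s ∧ deg n ≤ n ^ s + s

instance (F : PFamily) (n : ℕ) : Fintype (F.Var n) := F.fin n

/-- `F` is in VWaring: its Waring ranks are `O(n ^ s)` for some `s`. -/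
def VWaring (F : PFamily) : Prop :=
  ∃ s C : ℕ, ∀ᶠ n : ℕ in atTop, waringRank (F.deg n) (F.form n) ≤ ((C * n ^ s : ℕ) : ℕ∞)

/-- `F` is in the border class of VWaring: its border Waring ranks are `O(n ^ s)` for some `s`. -/
def BorderVWaring (F : PFamily) : Prop :=
  ∃ s C : ℕ, ∀ᶠ n : ℕ in atTop, borderWaringRank (F.deg n) (F.form n) ≤ ((C * n ^ s : ℕ) : ℕ∞)

end Pool.Agent.Lib.MP_00289a_lc_h67
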