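import Pool.Agent.Lib.MP_00289a_lc_h67.Rank

open MvPolynomial Filter Topology

namespace Pool.Agent.Lib.MP_00289a_lc_h67

variable {σ : Type} [Fintype σ]

/-- Evaluation matrices of forms of small border Waring rank are singular. -/
theorem eval_matrix_det {U J : Type} [Fintype U] [DecidableEq U] [Fintype J] {d r : ℕ}
    {f : MvPolynomial σ ℂ} (hb : borderWaringRank d f ≤ r)
    (hcard : r * (d + 1) < Fintype.card U) (A : U → σ → ℂ) (B : U → J → σ → ℂ) (c : J → ℂ) :
    (Matrix.of fun u v => ∑ j, c j * eval (A u + B v j) f).det = 0 := by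
  let M : MvPolynomial σ ℂ →ₗ[ℂ] Matrix U U ℂ :=
    { toFun := fun p => Matrix.of fun u v => ∑ j, c j * eval (A u + B v j) p
      map_add' := fun p p' => by
        ext u v
        simp [mul_add, Finset.sum_add_distrib]
      map_smul' := fun a p => by
        ext u v
        simp only [smul_eval, Matrix.of_apply, RingHom.id_apply, Matrix.smul_apply, smul_eq_mul,
          Finset.mul_sum]
        refine Finset.sum_congr rfl fun j _ => ?_
        ring }
  have hM : ∀ a : σ → ℂ, ∃ (P : Matrix U (Fin (d + 1)) ℂ) (Q : Matrix (Fin (d + 1)) U ℂ),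
      M (linForm a ^ d) = P * Q := by
    intro a
    refine ⟨Matrix.of fun u k => (d.choose k : ℂ) * (eval (A u) (linForm a)) ^ (k : ℕ),
      Matrix.of fun k v => ∑ j, c j * (eval (B v j) (linForm a)) ^ (d - (k : ℕ)), ?_⟩
    ext u v
    have hadd : ∀ x y : σ → ℂ, eval (x + y) (linForm a) = eval x (linForm a) + eval y (linForm a) := by
      intro x y
      simp only [eval_linForm, Pi.add_apply, mul_add, Finset.sum_add_distrib]
    simp only [M, LinearMap.coe_mk, AddHom.coe_mk, Matrix.of_apply, map_pow, hadd, add_pow,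
      Matrix.mul_apply]
    rw [Fin.sum_univ_eq_sum_range (fun k => (d.choose k : ℂ) * (eval (A u) (linForm a)) ^ k *
      ∑ j, c j * (eval (B v j) (linForm a)) ^ (d - k))]
    simp only [Finset.mul_sum]
    rw [Finset.sum_comm]
    refine Finset.sum_congr rfl fun k _ => Finset.sum_congr rfl fun j _ => ?_
    ring
  have := det_eq_zero_of_border (K := Fin (d + 1)) hb M hM (by simpa using hcard)
  exact this

/-- The point with blocks `u` at the positions given by `ι`, and coordinates `z` elsewhere. -/
noncomputable def put {N q : ℕ} (ι : Fin N × Fin q → σ) (u : Fin N → Fin q → ℂ) (z : σ → ℂ) :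
    σ → ℂ :=
  Function.extend ι (fun p => u p.1 p.2) z

omit [Fintype σ] in
theorem put_add {N q : ℕ} (ι : Fin N × Fin q → σ) (u v : Fin N → Fin q → ℂ) (z w : σ → ℂ) :
    put ι (u + v) (z + w) = put ι u z + put ι v w := by
  classical
  funext s
  simp only [put, Function.extend, Pi.add_apply]
  split_ifs <;> rfl

omit [Fintype σ] in
theorem put_smul {N q : ℕ} (ι : Fin N × Fin q → σ) (c : ℂ) (u : Fin N → Fin q → ℂ) (z : σ → ℂ) :
    put ι (c • u) (c • z) = c • put ι u z := by
  classical
  funext s
  simp only [put, Function.extend, Pi.smul_apply]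
  split_ifs <;> rfl

/-- The sign of a `0/1` vector. -/
def sgn {m : ℕ} (g : Fin m → Bool) : ℂ := ∏ j, if g j then -1 else 1

/-- The blocks obtained from `m` pairs of blocks and a background by merging the pairs in `g`. -/
def merged {V R : Type} [AddCommGroup V] {m : ℕ} (x y : Fin m → V) (l : R → V) (g : Fin m → Bool) :
    (Fin m × Bool) ⊕ R → V
  | Sum.inl (j, false) => if g j then x j + y j else x j
  | Sum.inl (j, true) => if g j then 0 else y j
  | Sum.inr k => l k

/-- flip the pairs in `g` -/
def flip {m : ℕ} {R : Type} (g : Fin m → Bool) : Equiv.Perm ((Fin m × Bool) ⊕ R) where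
  toFun
    | Sum.inl (j, b) => Sum.inl (j, xor b (g j))
    | Sum.inr k => Sum.inr k
  invFun
    | Sum.inl (j, b) => Sum.inl (j, xor b (g j))
    | Sum.inr k => Sum.inr k
  left_inv := by
    rintro (⟨j, b⟩ | k)
    · simp
    · rfl
  right_inv := by
    rintro (⟨j, b⟩ | k)
    · simp
    · rfl

theorem sum_sgn_eq_zero {m : ℕ} (j₀ : Fin m) (h : (Fin m → Bool) → ℂ)
    (hh : ∀ g, h (Function.update g j₀ (!(g j₀))) = h g) : ∑ g : Fin m → Bool, sgn g * h g = 0 := by
  classical
  let τ : (Fin m → Bool) → (Fin m → Bool) := fun g => Function.update g j₀ (!(g j₀))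
  have hτ : ∀ g, τ (τ g) = g := by
    intro g
    funext j
    by_cases hj : j = j₀
    · subst hj; simp [τ]
    · simp [τ, Function.update_of_ne hj]
  refine Finset.sum_involution (fun g _ => τ g) ?_ ?_ (fun g _ => Finset.mem_univ _)
    (fun g _ => hτ g)
  · intro g _
    have h1 : sgn (τ g) = - sgn g := by
      unfold sgn
      rw [← Finset.mul_prod_erase _ _ (Finset.mem_univ j₀),
        ← Finset.mul_prod_erase (Finset.univ : Finset (Fin m)) (fun j => if g j then (-1 : ℂ) else 1)
          (Finset.mem_univ j₀)]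
      have h2 : ∏ j ∈ Finset.univ.erase j₀, (if τ g j then (-1 : ℂ) else 1) =
          ∏ j ∈ Finset.univ.erase j₀, (if g j then (-1 : ℂ) else 1) := by
        refine Finset.prod_congr rfl fun j hj => ?_
        have : τ g j = g j := by simp [τ, Function.update_of_ne (Finset.ne_of_mem_erase hj)]
        rw [this]
      rw [h2]
      have h3 : τ g j₀ = !(g j₀) := by simp [τ]
      rw [h3]
      cases g j₀ <;> simp
    rw [h1, hh g]
    ring
  · intro g _ _ heq
    have := congrFun heq j₀
    simp [τ] at this

/-- The `m`-fold merging differences of a form invariant under permutations of its blocks vanish if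
its border Waring rank is small. -/
theorem kill {N m q : ℕ} (ι : Fin N × Fin q → σ) {f : MvPolynomial σ ℂ} {d r : ℕ}
    (hb : borderWaringRank d f ≤ r)
    (hsym : ∀ (π : Equiv.Perm (Fin N)) (u : Fin N → Fin q → ℂ) (z : σ → ℂ),
      eval (put ι (u ∘ π) z) f = eval (put ι u z) f)
    (hm : r * (d + 1) < (N / 2).choose m) (x y : Fin m → Fin q → ℂ)
    (l : Fin (N - 2 * m) → Fin q → ℂ) (z : σ → ℂ)
    (e : (Fin m × Bool) ⊕ Fin (N - 2 * m) ≃ Fin N) :
    ∑ g : Fin m → Bool, sgn g * eval (put ι (merged x y l g ∘ e.symm) z) f = 0 := by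
  classical
  set δ := ∑ g : Fin m → Bool, sgn g * eval (put ι (merged x y l g ∘ e.symm) z) f with hδ
  let U := {S : Finset (Fin (N / 2)) // S.card = m}
  have hcardU : Fintype.card U = (N / 2).choose m := by
    rw [Fintype.card_finset_len, Fintype.card_fin]
  have hmN : m ≤ N / 2 := by
    by_contra hcon
    rw [Nat.choose_eq_zero_of_lt (by omega)] at hm
    omega
  -- symmetry in terms of equivalences
  have hequiv : ∀ (e₁ e₂ : (Fin m × Bool) ⊕ Fin (N - 2 * m) ≃ Fin N)
      (w : (Fin m × Bool) ⊕ Fin (N - 2 * m) → Fin q → ℂ) (z : σ → ℂ),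
      eval (put ι (w ∘ e₁.symm) z) f = eval (put ι (w ∘ e₂.symm) z) f := by
    intro e₁ e₂ w z
    have := hsym (e₂.symm.trans e₁) (w ∘ e₁.symm) z
    rw [← this]
    congr 2
    congr 1
    funext i
    simp
  -- the positions of the pairs
  let P : Fin (N / 2) × Bool → Fin N := fun p =>
    ⟨2 * p.1 + (if p.2 then 1 else 0), by have := p.1.2; split_ifs <;> omega⟩
  have hP : Function.Injective P := by
    rintro ⟨j, b⟩ ⟨j', b'⟩ h
    have h' : 2 * (j : ℕ) + (if b then 1 else 0) = 2 * (j' : ℕ) + (if b' then 1 else 0) :=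
      congrArg Fin.val h
    have hb' : b = b' := by
      cases b <;> cases b' <;> simp_all <;> omega
    subst hb'
    have : j = j' := Fin.ext (by split_ifs at h' <;> omega)
    rw [this]
  have hE : ∀ S : U, ∃ E : (Fin m × Bool) ⊕ Fin (N - 2 * m) ≃ Fin N,
      (∀ j b, ∃ i ∈ S.1, E (Sum.inl (j, b)) = P (i, b)) ∧
      (∀ i ∈ S.1, ∃ j, ∀ b, E (Sum.inl (j, b)) = P (i, b)) := by
    rintro ⟨S, hS⟩
    let en : Fin m ≃ S := (S.orderIsoOfFin hS).toEquiv
    obtain ⟨π, hπ⟩ := Equiv.Perm.exists_extending_pair (fun p : Fin m × Bool => e (Sum.inl p))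
      (fun p : Fin m × Bool => P ((en p.1 : Fin (N / 2)), p.2))
      (fun a a' h => Sum.inl_injective (e.injective h))
      (by
        rintro ⟨j, b⟩ ⟨j', b'⟩ h
        have := hP h
        simp only [Prod.mk.injEq] at this
        obtain ⟨h1, h2⟩ := this
        have := en.injective (Subtype.ext h1)
        simp_all)
    refine ⟨e.trans π, ?_, ?_⟩
    · intro j b
      exact ⟨en j, (en j).2, by simpa using hπ (j, b)⟩
    · intro i hi
      refine ⟨en.symm ⟨i, hi⟩, fun b => ?_⟩
      have := hπ (en.symm ⟨i, hi⟩, b)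
      simpa using this
  choose E hE1 hE2 using hE
  let α : (Fin m × Bool) ⊕ Fin (N - 2 * m) → Fin q → ℂ := fun w => match w with
    | Sum.inl (j, false) => x j
    | Sum.inl (j, true) => x j + y j
    | Sum.inr _ => 0
  let β : (Fin m × Bool) ⊕ Fin (N - 2 * m) → Fin q → ℂ := fun w => match w with
    | Sum.inl (_, false) => 0
    | Sum.inl (j, true) => - x j
    | Sum.inr k => l k
  let A : U → σ → ℂ := fun S => put ι (α ∘ (E S).symm) 0
  let B : U → (Fin m → Bool) → σ → ℂ := fun S g => put ι (β ∘ flip g ∘ (E S).symm) z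
  have hdet := eval_matrix_det (U := U) hb (by rw [hcardU]; exact hm) A B sgn
  have hM : (Matrix.of fun S S' => ∑ g, sgn g * eval (A S + B S' g) f) =
      δ • (1 : Matrix U U ℂ) := by
    ext S S'
    simp only [Matrix.of_apply, Matrix.smul_apply, Matrix.one_apply, smul_eq_mul, mul_ite, mul_one,
      mul_zero]
    have hval : ∀ g, eval (A S + B S' g) f =
        eval (put ι (((α ∘ (E S).symm ∘ E S' ∘ flip g) + β) ∘ e.symm) z) f := by
      intro g
      have h1 : A S + B S' g = put ι (((α ∘ (E S).symm ∘ E S' ∘ flip g) + β) ∘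
          ((flip g).trans (E S')).symm) z := by
        have h2 : ((α ∘ (E S).symm ∘ E S' ∘ flip g) + β) ∘ ((flip g).trans (E S')).symm =
            (α ∘ (E S).symm) + (β ∘ flip g ∘ (E S').symm) := by
          funext i
          have hff : (flip g).symm = (flip g : Equiv.Perm ((Fin m × Bool) ⊕ Fin (N - 2 * m))) := by
            ext w
            rfl
          have hff2 : ∀ w, flip g (flip g w) = w := fun w => by
            nth_rewrite 1 [← hff]
            exact Equiv.symm_apply_apply _ _
          simp only [Function.comp_apply, Pi.add_apply, Equiv.symm_trans_apply, hff, hff2,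
            Equiv.apply_symm_apply]
        rw [h2]
        have h3 := put_add ι (α ∘ (E S).symm) (β ∘ flip g ∘ (E S').symm) 0 z
        rw [zero_add] at h3
        exact h3.symm
      rw [h1]
      exact hequiv _ _ _ _
    simp only [hval]
    split_ifs with hSS
    · subst hSS
      rw [hδ]
      refine Finset.sum_congr rfl fun g _ => ?_
      congr 3
      congr 1
      have h4 : (α ∘ (E S).symm ∘ E S ∘ flip g) + β = merged x y l g := by
        funext w
        rcases w with ⟨j, b⟩ | k
        · cases b <;> cases hg : g j <;> simp [α, β, merged, flip, hg]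
        · simp [α, β, merged, flip]
      rw [h4]
    · -- the off-diagonal entries vanish
      have hex : ∃ i ∈ S'.1, i ∉ S.1 := by
        by_contra hcon
        push Not at hcon
        apply hSS
        exact (Subtype.ext (Finset.eq_of_subset_of_card_le hcon (by rw [S.2, S'.2]))).symm
      obtain ⟨i, hi, hiS⟩ := hex
      obtain ⟨j₀, hj₀⟩ := hE2 S' i hi
      have hzero : ∀ b, α ((E S).symm (E S' (Sum.inl (j₀, b)))) = 0 := by
        intro b
        rw [hj₀ b]
        rcases hw : (E S).symm (P (i, b)) with ⟨j, b'⟩ | k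
        · exfalso
          obtain ⟨i', hi', h5⟩ := hE1 S j b'
          rw [← hw, Equiv.apply_symm_apply] at h5
          have := hP h5
          simp only [Prod.mk.injEq] at this
          exact hiS (this.1 ▸ hi')
        · rfl
      apply sum_sgn_eq_zero j₀
      intro g
      congr 2
      congr 1
      have h6 : α ∘ (E S).symm ∘ E S' ∘ flip (Function.update g j₀ (!(g j₀))) =
          α ∘ (E S).symm ∘ E S' ∘ flip g := by
        funext w
        rcases w with ⟨j, b⟩ | k
        · by_cases hj : j = j₀
          · subst hj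
            simp only [Function.comp_apply, flip, Equiv.coe_fn_mk, hzero]
          · simp only [Function.comp_apply, flip, Equiv.coe_fn_mk, Function.update_of_ne hj]
        · rfl
      rw [h6]
  rw [hM, Matrix.det_smul, Matrix.det_one, mul_one] at hdet
  exact (pow_eq_zero_iff (by rw [hcardU]; omega)).1 hdet

end Pool.Agent.Lib.MP_00289a_lc_h67
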