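import Pool.Agent.Lib.MP_00289a_lc_h67.Defs

/-!
# Multidegrees
-/

open MvPolynomial

namespace Pool.Agent.Lib.MP_00289a_lc_h67

open Classical in
/-- The multidegrees of `f` with respect to the partition of the variables into blocks given by
`w`: the variable `s` is in the block `w s`, and the multidegree of a monomial records its degree
in each block. The multidegrees of `f` are those of the monomials of `f`. -/
noncomputable def multidegrees {σ B : Type} [Fintype σ] (w : σ → B) (f : MvPolynomial σ ℂ) :
    Finset (B → ℕ) :=
  f.support.image fun α j => ∑ s with w s = j, α s

end Pool.Agent.Lib.MP_00289a_lc_h67
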