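import Pool.Agent.Lib.MP_00289a_lc_h67.Restrict
import Pool.Agent.Lib.MP_00289a_lc_h67.MultiDefs

open MvPolynomial Filter Topology

namespace Pool.Agent.Lib.MP_00289a_lc_h67

/-- Greedy choice: if every element is related to at most `t` elements then there is a sequence of
length at least `|S| / t` in which no element is related to a later one. -/
theorem greedy {X : Type} [DecidableEq X] (R : X → X → Prop) [∀ x y, Decidable (R x y)] (t : ℕ) :
    ∀ (n : ℕ) (S : Finset X), S.card = n → (∀ x ∈ S, R x x) →
      (∀ x ∈ S, (S.filter fun y => R x y).card ≤ t) →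
      ∃ l : List X, (∀ x ∈ l, x ∈ S) ∧ l.Pairwise (fun x y => ¬ R x y) ∧ S.card ≤ t * l.length := by
  intro n
  induction n using Nat.strong_induction_on with
  | _ n ih =>
    intro S hS hrefl hdeg
    rcases S.eq_empty_or_nonempty with h0 | ⟨x, hx⟩
    · subst h0
      exact ⟨[], by simp, by simp, by simp⟩
    · set S' := S.filter fun y => ¬ R x y with hS'
      have hsub : S' ⊆ S := Finset.filter_subset _ _
      have hlt : S'.card < n := by
        rw [← hS]
        apply Finset.card_lt_card
        refine ⟨hsub, fun h => ?_⟩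
        have := h hx
        rw [hS', Finset.mem_filter] at this
        exact this.2 (hrefl x hx)
      obtain ⟨l, hl1, hl2, hl3⟩ := ih S'.card hlt S' rfl (fun y hy => hrefl y (hsub hy))
        (fun y hy => (Finset.card_le_card (Finset.filter_subset_filter _ hsub)).trans
          (hdeg y (hsub hy)))
      refine ⟨x :: l, ?_, ?_, ?_⟩
      · intro y hy
        rcases List.mem_cons.1 hy with h | h
        · rw [h]; exact hx
        · exact hsub (hl1 y h)
      · rw [List.pairwise_cons]
        refine ⟨fun y hy => ?_, hl2⟩
        have := hl1 y hy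
        rw [hS', Finset.mem_filter] at this
        exact this.2
      · have h1 : S.card = (S.filter fun y => R x y).card + S'.card := by
          rw [hS', Finset.card_filter_add_card_filter_not]
        rw [h1, List.length_cons]
        have := hdeg x hx
        calc (S.filter fun y => R x y).card + S'.card ≤ t + t * l.length := Nat.add_le_add this hl3
          _ = t * (l.length + 1) := by ring

theorem exists_le_sum {X : Type} [DecidableEq X] (S : Finset X) (α : X → ℕ) :
    ∀ b : ℕ, b ≤ ∑ s ∈ S, α s → ∃ γ : X → ℕ, (∀ s, γ s ≤ α s) ∧ ∑ s ∈ S, γ s = b := by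
  induction S using Finset.induction_on with
  | empty =>
    intro b hb
    exact ⟨fun _ => 0, fun _ => Nat.zero_le _, by simpa using hb.antisymm (Nat.zero_le _) |>.symm⟩
  | insert x S hx ih =>
    intro b hb
    rw [Finset.sum_insert hx] at hb
    obtain ⟨γ, h1, h2⟩ := ih (b - α x) (by omega)
    refine ⟨fun s => if s = x then min b (α x) else γ s, ?_, ?_⟩
    · intro s
      by_cases hs : s = x
      · simp [hs]
      · simp [hs, h1 s]
    · rw [Finset.sum_insert hx, if_pos rfl]
      have : ∑ s ∈ S, (if s = x then min b (α x) else γ s) = ∑ s ∈ S, γ s := by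
        refine Finset.sum_congr rfl fun s hs => ?_
        rw [if_neg]
        rintro rfl
        exact hx hs
      rw [this, h2]
      omega

variable {σ B : Type} [Fintype σ] [Fintype B]

open Classical in
/-- The multidegree of an exponent vector. -/
noncomputable def md (w : σ → B) (α : σ →₀ ℕ) : B → ℕ := fun j => ∑ s with w s = j, α s

omit [Fintype B] in
theorem mem_multidegrees (w : σ → B) (f : MvPolynomial σ ℂ) (a : B → ℕ) :
    a ∈ multidegrees w f ↔ ∃ α ∈ f.support, md w α = a := by
  classical
  unfold multidegrees
  simp only [Finset.mem_image]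
  rfl

omit [Fintype B] in
theorem md_add (w : σ → B) (α β : σ →₀ ℕ) : md w (α + β) = md w α + md w β := by
  funext j
  simp [md, Finset.sum_add_distrib]

theorem sum_md (w : σ → B) (α : σ →₀ ℕ) : ∑ j, md w α j = α.degree := by
  classical
  rw [Finsupp.degree_eq_sum]
  unfold md
  exact Finset.sum_fiberwise _ _ _

omit [Fintype B] in
theorem le_md (w : σ → B) (α : σ →₀ ℕ) (s : σ) : α s ≤ md w α (w s) := by
  classical
  unfold md
  exact Finset.single_le_sum (f := fun s => α s) (fun _ _ => Nat.zero_le _) (by simp)

omit [Fintype B] in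
/-- An exponent vector of a given multidegree below a given one. -/
theorem exists_md (w : σ → B) (α : σ →₀ ℕ) (b : B → ℕ) (hb : ∀ j, b j ≤ md w α j) :
    ∃ γ : σ →₀ ℕ, γ ≤ α ∧ md w γ = b := by
  classical
  have h1 : ∀ j, ∃ γ : σ → ℕ, (∀ s, γ s ≤ α s) ∧ ∑ s with w s = j, γ s = b j := fun j =>
    exists_le_sum _ _ _ (hb j)
  choose γ h2 h3 using h1
  refine ⟨Finsupp.equivFunOnFinite.symm fun s => γ (w s) s, fun s => h2 _ _, ?_⟩
  funext j
  rw [← h3 j]
  unfold md
  refine Finset.sum_congr rfl fun s hs => ?_
  rw [Finset.mem_filter] at hs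
  simp [hs.2]

/-- **Lower bound.** If `a` is a multidegree of `f` then the border Waring rank of `f` is at least
`∏ (a j + 1)`, divided by `d + 1` and by the number of multidegrees. -/
theorem prod_le_of_border (w : σ → B) {f : MvPolynomial σ ℂ} {d r : ℕ}
    (hb : borderWaringRank d f ≤ r) (α : σ →₀ ℕ) (hα : α ∈ f.support) :
    ∏ j, (md w α j + 1) ≤ (multidegrees w f).card * (d + 1) * r := by
  classical
  have hhom := isHomogeneous_of_border hb
  have hdeg : α.degree = d := degree_of_coeff_ne hhom (mem_support_iff.1 hα)
  set t := (multidegrees w f).card with ht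
  -- the boxes
  let box : Finset (B → ℕ) := Fintype.piFinset fun j => Finset.range (md w α j + 1)
  have hbox : box.card = ∏ j, (md w α j + 1) := by
    rw [Fintype.card_piFinset]; simp
  have hmem : ∀ b ∈ box, ∀ j, b j ≤ md w α j := by
    intro b hb j
    have := Fintype.mem_piFinset.1 hb j
    rw [Finset.mem_range] at this
    omega
  have hγ : ∀ b : B → ℕ, ∃ γ : σ →₀ ℕ, b ∈ box → (γ ≤ α ∧ md w γ = b) := by
    intro b
    by_cases h : b ∈ box
    · obtain ⟨γ, h1⟩ := exists_md w α b (hmem b h)
      exact ⟨γ, fun _ => h1⟩
    · exact ⟨0, fun h' => absurd h' h⟩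
  choose γ hγ using hγ
  have hfib : ∀ k, (box.filter fun b => ∑ j, b j = k).card ≤ t * r := by
    intro k
    set S := box.filter fun b => ∑ j, b j = k with hS
    let μ : (B → ℕ) → (B → ℕ) → (σ →₀ ℕ) := fun b b' => γ b + (α - γ b')
    let R : (B → ℕ) → (B → ℕ) → Prop := fun b b' => coeff (μ b b') f ≠ 0
    have hmu : ∀ b ∈ S, μ b b = α := by
      intro b hb
      have := (hγ b (Finset.mem_filter.1 hb).1).1
      simp only [μ]
      exact add_tsub_cancel_of_le this
    obtain ⟨l, hl1, hl2, hl3⟩ := greedy R t S.card S rfl (fun b hb => by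
        simp only [R]
        rw [hmu b hb]
        exact mem_support_iff.1 hα)
      (fun b hb => by
        rw [ht]
        refine Finset.card_le_card_of_injOn (fun b' => md w (μ b b')) ?_ ?_
        · intro b' hb'
          have hb'' := (Finset.mem_filter.1 hb').2
          exact (mem_multidegrees w f _).2 ⟨_, mem_support_iff.2 hb'', rfl⟩
        · intro b1 hb1 b2 hb2 heq
          have h1 := (Finset.mem_filter.1 hb1).1
          have h2 := (Finset.mem_filter.1 hb2).1
          have h3 := hγ b1 (Finset.mem_filter.1 h1).1
          have h4 := hγ b2 (Finset.mem_filter.1 h2).1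
          have h5 : md w (α - γ b1) = md w (α - γ b2) := by
            simp only [μ, md_add] at heq
            exact add_left_cancel heq
          have h6 : md w (γ b1) + md w (α - γ b1) = md w α := by
            rw [← md_add, add_tsub_cancel_of_le h3.1]
          have h7 : md w (γ b2) + md w (α - γ b2) = md w α := by
            rw [← md_add, add_tsub_cancel_of_le h4.1]
          rw [h3.2] at h6
          rw [h4.2, ← h5] at h7
          exact add_right_cancel (h6.trans h7.symm))
    -- the triangular matrix
    refine hl3.trans (Nat.mul_le_mul_left _ ?_)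
    by_contra hcon
    push Not at hcon
    let b : Fin l.length → (B → ℕ) := fun i => l.get i
    let M : MvPolynomial σ ℂ →ₗ[ℂ] Matrix (Fin l.length) (Fin l.length) ℂ :=
      { toFun := fun p => Matrix.of fun i j =>
          ((μ (b i) (b j)).multinomial : ℂ)⁻¹ * coeff (μ (b i) (b j)) p
        map_add' := fun p p' => by
          ext i j
          simp [mul_add]
        map_smul' := fun c p => by
          ext i j
          simp only [coeff_smul, Matrix.of_apply, RingHom.id_apply, Matrix.smul_apply, smul_eq_mul]
          ring }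
    have hbS : ∀ i, b i ∈ S := fun i => hl1 _ (List.get_mem l i)
    have hbk : ∀ i, γ (b i) ≤ α ∧ (γ (b i)).degree = k := by
      intro i
      have h1 := Finset.mem_filter.1 (hbS i)
      have h2 := hγ (b i) h1.1
      refine ⟨h2.1, ?_⟩
      rw [← sum_md w, h2.2, h1.2]
    have hM : ∀ a : σ → ℂ, ∃ (P : Matrix (Fin l.length) Unit ℂ) (Q : Matrix Unit (Fin l.length) ℂ),
        M (linForm a ^ d) = P * Q := by
      intro a
      refine ⟨Matrix.of fun i _ => ∏ s, a s ^ (γ (b i)) s,
        Matrix.of fun _ j => ∏ s, a s ^ (α - γ (b j)) s, ?_⟩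
      ext i j
      simp only [M, LinearMap.coe_mk, AddHom.coe_mk, Matrix.of_apply, Matrix.mul_apply,
        Finset.univ_unique, Finset.sum_singleton, coeff_linForm_pow]
      have h1 : (μ (b i) (b j)).degree = d := by
        have h2 : (γ (b j)).degree + (α - γ (b j)).degree = d := by
          rw [← map_add, add_tsub_cancel_of_le (hbk j).1, hdeg]
        simp only [μ, map_add]
        rw [(hbk i).2, ← h2, (hbk j).2]
      rw [if_pos h1, ← mul_assoc, inv_mul_cancel₀ (multinomial_ne_zero _), one_mul,
        ← Finset.prod_mul_distrib]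
      refine Finset.prod_congr rfl fun s _ => ?_
      rw [← pow_add]
      rfl
    have hdet := det_eq_zero_of_border (K := Unit) hb M hM (by simpa using hcon)
    have htri : (M f).BlockTriangular OrderDual.toDual := by
      intro i j hij
      have hlt : i < j := hij
      have h1 : ¬ R (b i) (b j) := List.pairwise_iff_get.1 hl2 i j hlt
      have h2 : coeff (μ (b i) (b j)) f = 0 := not_not.1 h1
      simp only [M, LinearMap.coe_mk, AddHom.coe_mk, Matrix.of_apply, h2, mul_zero]
    rw [Matrix.det_of_isLowerTriangular _ htri, Finset.prod_eq_zero_iff] at hdet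
    obtain ⟨i, -, hi⟩ := hdet
    simp only [M, LinearMap.coe_mk, AddHom.coe_mk, Matrix.of_apply, hmu _ (hbS i)] at hi
    rcases mul_eq_zero.1 hi with h | h
    · exact inv_ne_zero (multinomial_ne_zero α) h
    · exact (mem_support_iff.1 hα) h
  -- sum over `k`
  have hmaps : ∀ b ∈ box, ∑ j, b j ∈ Finset.range (d + 1) := by
    intro b hb
    rw [Finset.mem_range]
    have : ∑ j, b j ≤ ∑ j, md w α j := Finset.sum_le_sum fun j _ => hmem b hb j
    rw [sum_md, hdeg] at this
    omega
  rw [← hbox, Finset.card_eq_sum_card_fiberwise hmaps]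
  calc ∑ k ∈ Finset.range (d + 1), (box.filter fun b => ∑ j, b j = k).card
      ≤ ∑ k ∈ Finset.range (d + 1), t * r := Finset.sum_le_sum fun k _ => hfib k
    _ = t * (d + 1) * r := by rw [Finset.sum_const, Finset.card_range, smul_eq_mul]; ring

/-- **Explicit bound.** -/
theorem isSumOfPowers_of_multidegrees (w : σ → B) {q : ℕ}
    (hq : ∀ j, Nat.card {s // w s = j} ≤ q) {f : MvPolynomial σ ℂ} {d r : ℕ} (hd : d ≠ 0)
    (hb : borderWaringRank d f ≤ r) :
    IsSumOfPowers d ((multidegrees w f).card * ((multidegrees w f).card * (d + 1) * r) ^ q) f := by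
  classical
  have hhom := isHomogeneous_of_border hb
  set t := (multidegrees w f).card with ht
  let comp : (B → ℕ) → MvPolynomial σ ℂ := fun a =>
    ∑ α ∈ f.support.filter (fun α => md w α = a), monomial α (coeff α f)
  have hcomp_coeff : ∀ a β, coeff β (comp a) = if md w β = a then coeff β f else 0 := by
    intro a β
    simp only [comp, coeff_sum, coeff_monomial]
    rw [Finset.sum_ite_eq']
    simp only [Finset.mem_filter, mem_support_iff]
    by_cases h1 : md w β = a
    · by_cases h2 : coeff β f = 0
      · simp [h1, h2]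
      · simp [h1, h2]
    · simp [h1]
  have hsum : f = ∑ a ∈ multidegrees w f, comp a := by
    ext β
    rw [coeff_sum]
    simp only [hcomp_coeff]
    rw [Finset.sum_ite_eq]
    split_ifs with h
    · rfl
    · by_contra hne
      apply h
      exact (mem_multidegrees w f _).2 ⟨_, mem_support_iff.2 hne, rfl⟩
  have hcomp : ∀ a ∈ multidegrees w f, IsSumOfPowers d ((t * (d + 1) * r) ^ q) (comp a) := by
    intro a ha
    have hchom : (comp a).IsHomogeneous d := by
      intro β hβ
      rw [hcomp_coeff] at hβ
      split_ifs at hβ with h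
      · exact hhom hβ
      · exact absurd rfl hβ
    have hbox := isSumOfPowers_box hd (fun s => a (w s) + 1) (comp a) hchom (by
      intro β hβ s
      rw [mem_support_iff, hcomp_coeff] at hβ
      have h1 : md w β = a := by
        by_contra h
        rw [if_neg h] at hβ
        exact hβ rfl
      have := le_md w β s
      rw [h1] at this
      omega)
    refine hbox.mono hd ?_
    obtain ⟨α, hα, hαa'⟩ := (mem_multidegrees w f a).1 ha
    have hlow := prod_le_of_border w hb α hα
    rw [hαa'] at hlow
    calc ∏ s, (a (w s) + 1) = ∏ j, ∏ s with w s = j, (a (w s) + 1) :=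
          (Finset.prod_fiberwise _ _ _).symm
      _ = ∏ j, (a j + 1) ^ Nat.card {s // w s = j} := by
          refine Finset.prod_congr rfl fun j _ => ?_
          rw [Nat.card_eq_fintype_card, Fintype.card_subtype, ← Finset.prod_const]
          refine Finset.prod_congr rfl fun s hs => ?_
          rw [(Finset.mem_filter.1 hs).2]
      _ ≤ ∏ j, (a j + 1) ^ q := Finset.prod_le_prod' fun j _ =>
          Nat.pow_le_pow_right (Nat.succ_pos _) (hq j)
      _ = (∏ j, (a j + 1)) ^ q := Finset.prod_pow _ _ _
      _ ≤ _ := Nat.pow_le_pow_left hlow q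
  have h1 := isSumOfPowers_sum (multidegrees w f) (fun _ => (t * (d + 1) * r) ^ q) comp hcomp
  rw [← hsum, Finset.sum_const, smul_eq_mul] at h1
  exact h1

end Pool.Agent.Lib.MP_00289a_lc_h67
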