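import Pool.Agent.Lib.MP_00289a_lc_h67.Symmetric

open MvPolynomial Filter Topology

namespace Pool.Agent.Lib.MP_00289a_lc_h67

theorem borderWaringRank_le_waringRank {σ : Type} [Fintype σ] {d : ℕ} {f : MvPolynomial σ ℂ} {r : ℕ}
    (hf : f.IsHomogeneous d) (h : waringRank d f ≤ r) : borderWaringRank d f ≤ r :=
  iInf₂_le r ⟨fun _ => f, fun _ => ⟨hf, h⟩, fun _ => tendsto_const_nhds⟩

theorem border_of_vwaring (F : PFamily) (h : VWaring F) : BorderVWaring F := by
  obtain ⟨s, C, h⟩ := h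
  refine ⟨s, C, ?_⟩
  filter_upwards [h] with n hn
  exact borderWaringRank_le_waringRank (F.homogeneous n) hn

theorem choose_large {K s2 m N n : ℕ} (hm : m = K * s2 + K + 1) (hn : n ≤ N ^ K)
    (hn0 : (4 ^ m * m.factorial + 4 * m + 1) ^ K < n) : n ^ s2 < (N / 2).choose m := by
  have hB : 4 ^ m * m.factorial + 4 * m + 1 < N := by
    by_contra hcon
    push Not at hcon
    have := Nat.pow_le_pow_left hcon K
    omega
  have h1 : (N / 2 + 1 - m) ^ m ≤ (N / 2).descFactorial m := Nat.pow_sub_le_descFactorial _ _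
  rw [Nat.descFactorial_eq_factorial_mul_choose] at h1
  have h2 : N ≤ 4 * (N / 2 + 1 - m) := by omega
  have h3 : N ^ m ≤ 4 ^ m * (m.factorial * (N / 2).choose m) := by
    calc N ^ m ≤ (4 * (N / 2 + 1 - m)) ^ m := Nat.pow_le_pow_left h2 m
      _ = 4 ^ m * (N / 2 + 1 - m) ^ m := by rw [mul_pow]
      _ ≤ _ := Nat.mul_le_mul_left _ h1
  have h4 : N ^ (K * s2) * (4 ^ m * m.factorial) < N ^ m := by
    have hNpos : 0 < N := by omega
    calc N ^ (K * s2) * (4 ^ m * m.factorial) < N ^ (K * s2) * N := by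
          apply Nat.mul_lt_mul_of_pos_left _ (by positivity)
          omega
      _ ≤ N ^ (K * s2) * N ^ (K + 1) := by
          apply Nat.mul_le_mul_left
          calc N = N ^ 1 := (pow_one N).symm
            _ ≤ N ^ (K + 1) := Nat.pow_le_pow_right hNpos (by omega)
      _ = N ^ m := by rw [hm, ← pow_add]; congr 1
  have h5 : N ^ (K * s2) * (4 ^ m * m.factorial) <
      (N / 2).choose m * (4 ^ m * m.factorial) := by
    calc N ^ (K * s2) * (4 ^ m * m.factorial) < N ^ m := h4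
      _ ≤ 4 ^ m * (m.factorial * (N / 2).choose m) := h3
      _ = (N / 2).choose m * (4 ^ m * m.factorial) := by ring
  have h6 := Nat.lt_of_mul_lt_mul_right h5
  calc n ^ s2 ≤ (N ^ K) ^ s2 := Nat.pow_le_pow_left hn s2
    _ = N ^ (K * s2) := by rw [← pow_mul]
    _ < _ := h6

theorem vwaring_of_blockSymmetric (F : PFamily) {G q : ℕ} (hq : 0 < q) (N : ℕ → Fin G → ℕ)
    (e : ∀ n, F.Var n ≃ Σ g : Fin G, Fin (N n g) × Fin q)
    (hsym : ∀ n, BlockSymmetric (e n) (F.form n)) (K : ℕ)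
    (hN : ∀ᶠ n in atTop, ∀ g, N n g ≤ K ∨ n ≤ N n g ^ K) (hb : BorderVWaring F) :
    VWaring F := by
  obtain ⟨s0, C0, h0⟩ := hb
  obtain ⟨s1, h1⟩ := F.bounded
  set s2 := s0 + s1 + 1 with hs2
  set m := K * s2 + K + 1 with hm
  set E := (m - 1) * G + q * G * (2 * m - 1) with hE
  refine ⟨s0 + s1 * E, C0 + (2 * (s1 + 2)) ^ E, ?_⟩
  filter_upwards [h0, hN, eventually_gt_atTop ((4 ^ m * m.factorial + 4 * m + 1) ^ K),
    eventually_ge_atTop (C0 * (s1 + 2)), eventually_ge_atTop 1] with n hn0 hnN hnB hnC hn1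
  obtain ⟨hcard, hdeg⟩ := h1 n
  have hpow : ∀ a b : ℕ, a ≤ b → n ^ a ≤ n ^ b := fun a b hab => Nat.pow_le_pow_right hn1 hab
  -- the size of the blocks
  have hNM : ∀ g, N n g ≤ n ^ s1 + s1 := by
    intro g
    have h2 : Fintype.card (F.Var n) = ∑ g, N n g * q := by
      rw [Fintype.card_congr (e n)]
      simp
    rw [h2] at hcard
    calc N n g ≤ N n g * q := Nat.le_mul_of_pos_right _ hq
      _ ≤ ∑ g, N n g * q := Finset.single_le_sum (f := fun g => N n g * q)
          (fun _ _ => Nat.zero_le _) (Finset.mem_univ g)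
      _ ≤ _ := hcard
  rcases Nat.eq_zero_or_pos (F.deg n) with hd | hd
  · -- degree zero
    rw [hd] at hn0 ⊢
    refine (waringRank_zero_le hn0).trans ?_
    have : C0 * n ^ s0 ≤ (C0 + (2 * (s1 + 2)) ^ E) * n ^ (s0 + s1 * E) :=
      Nat.mul_le_mul (Nat.le_add_right _ _) (hpow _ _ (Nat.le_add_right _ _))
    exact_mod_cast this
  · have hs1 : n ^ s1 + s1 + 1 ≤ (s1 + 2) * n ^ s1 := by
      have : 1 ≤ n ^ s1 := Nat.one_le_pow _ _ hn1
      nlinarith
    have hrd : C0 * n ^ s0 * (F.deg n + 1) ≤ n ^ s2 := by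
      calc C0 * n ^ s0 * (F.deg n + 1) ≤ C0 * n ^ s0 * ((s1 + 2) * n ^ s1) :=
            Nat.mul_le_mul_left _ (by omega)
        _ = (C0 * (s1 + 2)) * n ^ (s0 + s1) := by rw [pow_add]; ring
        _ ≤ n * n ^ (s0 + s1) := Nat.mul_le_mul_right _ hnC
        _ = n ^ s2 := by rw [hs2, pow_succ]; ring
    have key := isSumOfPowers_of_blockSymmetric (hsym n) (m := m) (M := n ^ s1 + s1)
      (Nat.pos_iff_ne_zero.1 hd) hn0 (by omega) (by
        intro g
        rcases hnN g with h | h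
        · left
          have : K * s2 + K + 1 ≤ m := le_refl _
          omega
        · right
          exact hrd.trans_lt (choose_large hm h hnB)) hNM
    refine (waringRank_le key).trans ?_
    have hfin : ((2 * (n ^ s1 + s1 + 1)) ^ (m - 1)) ^ G * (F.deg n + 1) ^ (q * G * (2 * m - 1)) ≤
        (C0 + (2 * (s1 + 2)) ^ E) * n ^ (s0 + s1 * E) := by
      have h3 : 2 * (n ^ s1 + s1 + 1) ≤ 2 * (s1 + 2) * n ^ s1 := by
        calc 2 * (n ^ s1 + s1 + 1) ≤ 2 * ((s1 + 2) * n ^ s1) := Nat.mul_le_mul_left _ hs1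
          _ = _ := by ring
      have h4 : F.deg n + 1 ≤ 2 * (s1 + 2) * n ^ s1 := by
        calc F.deg n + 1 ≤ n ^ s1 + s1 + 1 := by omega
          _ ≤ 2 * (n ^ s1 + s1 + 1) := by omega
          _ ≤ _ := h3
      calc ((2 * (n ^ s1 + s1 + 1)) ^ (m - 1)) ^ G * (F.deg n + 1) ^ (q * G * (2 * m - 1))
          ≤ ((2 * (s1 + 2) * n ^ s1) ^ (m - 1)) ^ G *
              (2 * (s1 + 2) * n ^ s1) ^ (q * G * (2 * m - 1)) := by
            apply Nat.mul_le_mul
            · exact Nat.pow_le_pow_left (Nat.pow_le_pow_left h3 _) _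
            · exact Nat.pow_le_pow_left h4 _
        _ = (2 * (s1 + 2)) ^ E * n ^ (s1 * E) := by
            rw [← pow_mul, ← pow_add, mul_pow, ← pow_mul]
        _ ≤ (C0 + (2 * (s1 + 2)) ^ E) * n ^ (s0 + s1 * E) :=
            Nat.mul_le_mul (Nat.le_add_left _ _) (hpow _ _ (Nat.le_add_left _ _))
    exact_mod_cast hfin

end Pool.Agent.Lib.MP_00289a_lc_h67
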