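import Pool.Agent.Lib.MP_00289a_lc_h67.Multi
import Pool.Agent.Lib.MP_00289a_lc_h67.SymMain

open MvPolynomial Filter Topology

namespace Pool.Agent.Lib.MP_00289a_lc_h67

theorem vwaring_of_multidegrees (F : PFamily) {B : ℕ → Type} [∀ n, Fintype (B n)]
    (w : ∀ n, F.Var n → B n) (q : ℕ) (hq : ∀ n j, Nat.card {s // w n s = j} ≤ q) (c C : ℕ)
    (hcount : ∀ᶠ n in atTop, (multidegrees (w n) (F.form n)).card ≤ C * n ^ c)
    (hb : BorderVWaring F) : VWaring F := by
  obtain ⟨s0, C0, h0⟩ := hb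
  obtain ⟨s1, h1⟩ := F.bounded
  set E := c + (c + s1 + s0) * q with hE
  refine ⟨s0 + E, C0 + C * (C * (s1 + 2) * C0) ^ q, ?_⟩
  filter_upwards [h0, hcount, eventually_ge_atTop 1] with n hn0 hnC hn1
  obtain ⟨-, hdeg⟩ := h1 n
  have hpow : ∀ a b : ℕ, a ≤ b → n ^ a ≤ n ^ b := fun a b hab => Nat.pow_le_pow_right hn1 hab
  rcases Nat.eq_zero_or_pos (F.deg n) with hd | hd
  · rw [hd] at hn0 ⊢
    refine (waringRank_zero_le hn0).trans ?_
    have : C0 * n ^ s0 ≤ (C0 + C * (C * (s1 + 2) * C0) ^ q) * n ^ (s0 + E) :=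
      Nat.mul_le_mul (Nat.le_add_right _ _) (hpow _ _ (Nat.le_add_right _ _))
    exact_mod_cast this
  · have key := isSumOfPowers_of_multidegrees (w n) (hq n) (Nat.pos_iff_ne_zero.1 hd) hn0
    refine (waringRank_le key).trans ?_
    have hs1 : F.deg n + 1 ≤ (s1 + 2) * n ^ s1 := by
      have : 1 ≤ n ^ s1 := Nat.one_le_pow _ _ hn1
      nlinarith
    have hfin : (multidegrees (w n) (F.form n)).card *
        ((multidegrees (w n) (F.form n)).card * (F.deg n + 1) * (C0 * n ^ s0)) ^ q ≤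
        (C0 + C * (C * (s1 + 2) * C0) ^ q) * n ^ (s0 + E) := by
      calc (multidegrees (w n) (F.form n)).card *
          ((multidegrees (w n) (F.form n)).card * (F.deg n + 1) * (C0 * n ^ s0)) ^ q
          ≤ (C * n ^ c) * ((C * n ^ c) * ((s1 + 2) * n ^ s1) * (C0 * n ^ s0)) ^ q := by
            gcongr
        _ = C * (C * (s1 + 2) * C0) ^ q * n ^ E := by
            rw [hE]
            have : (C * n ^ c) * ((s1 + 2) * n ^ s1) * (C0 * n ^ s0) =
                (C * (s1 + 2) * C0) * n ^ (c + s1 + s0) := by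
              rw [pow_add, pow_add]; ring
            rw [this, mul_pow, ← pow_mul, pow_add n c]
            ring
        _ ≤ _ := Nat.mul_le_mul (Nat.le_add_left _ _) (hpow _ _ (Nat.le_add_left _ _))
    exact_mod_cast hfin

end Pool.Agent.Lib.MP_00289a_lc_h67
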