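import Pool.Agent.Lib.MP_00289a_lc_h67.Kill

open MvPolynomial Filter Topology

namespace Pool.Agent.Lib.MP_00289a_lc_h67

variable {σ : Type} [Fintype σ]

/-! ### Symmetric functions and multisets -/

theorem exists_perm_of_sum_eq {I V : Type} [Fintype I] (u v : I → V)
    (h : ∑ i, ({u i} : Multiset V) = ∑ i, ({v i} : Multiset V)) :
    ∃ π : Equiv.Perm I, u ∘ π = v := by
  classical
  have hcount : ∀ (w : I → V) (c : V), Fintype.card {i // w i = c} =
      Multiset.count c (∑ i, ({w i} : Multiset V)) := by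
    intro w c
    rw [Multiset.count_sum', Fintype.card_subtype, Finset.card_filter]
    refine Finset.sum_congr rfl fun i _ => ?_
    rw [Multiset.count_singleton]
    by_cases hc : w i = c
    · simp [hc]
    · simp [hc, Ne.symm hc]
  let e : ∀ c, {i // v i = c} ≃ {i // u i = c} := fun c =>
    Fintype.equivOfCardEq (by rw [hcount, hcount, h])
  refine ⟨Equiv.ofFiberEquiv e, ?_⟩
  funext i
  exact Equiv.ofFiberEquiv_map e i

theorem sum_getD {V : Type} [Zero V] (L : List V) : ∀ (N : ℕ), L.length ≤ N →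
    ∑ i : Fin N, ({L.getD i 0} : Multiset V) = (L : Multiset V) + (N - L.length) • {0} := by
  induction L with
  | nil =>
    intro N _
    simp
  | cons a L ih =>
    intro N hN
    obtain ⟨N, rfl⟩ : ∃ N', N = N' + 1 := ⟨N - 1, by simp at hN; omega⟩
    rw [Fin.sum_univ_succ]
    have h1 := ih N (by simpa using hN)
    simp only [Fin.val_zero, List.getD_cons_zero, Fin.val_succ, List.getD_cons_succ, h1,
      List.length_cons, Nat.add_sub_add_right]
    rw [← add_assoc, Multiset.singleton_add, Multiset.cons_coe]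

/-- The value of `f` at a multiset of blocks, padded with zero blocks. -/
noncomputable def Fhat {N q : ℕ} (ι : Fin N × Fin q → σ) (f : MvPolynomial σ ℂ) (z : σ → ℂ)
    (μ : Multiset (Fin q → ℂ)) : ℂ :=
  eval (put ι (fun i : Fin N => μ.toList.getD i 0) z) f

/-- `f` does not change under permutations of the blocks given by `ι`. -/
def Invariant {N q : ℕ} (ι : Fin N × Fin q → σ) (f : MvPolynomial σ ℂ) : Prop :=
  ∀ (π : Equiv.Perm (Fin N)) (u : Fin N → Fin q → ℂ) (z : σ → ℂ),
    eval (put ι (u ∘ π) z) f = eval (put ι u z) f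

omit [Fintype σ] in
theorem Fhat_eq {N q : ℕ} {ι : Fin N × Fin q → σ} {f : MvPolynomial σ ℂ} (hsym : Invariant ι f)
    (z : σ → ℂ) {μ : Multiset (Fin q → ℂ)} {u : Fin N → Fin q → ℂ} {k : ℕ}
    (h : ∑ i, ({u i} : Multiset (Fin q → ℂ)) = μ + k • {0}) :
    Fhat ι f z μ = eval (put ι u z) f := by
  have hcard := congrArg Multiset.card h
  simp only [Multiset.card_sum, Multiset.card_singleton, Finset.sum_const, Finset.card_univ,
    Fintype.card_fin, smul_eq_mul, mul_one, Multiset.card_add, Multiset.card_nsmul] at hcard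
  have h1 := sum_getD μ.toList N (by rw [Multiset.length_toList]; omega)
  rw [Multiset.coe_toList, Multiset.length_toList] at h1
  have h2 : N - Multiset.card μ = k := by omega
  rw [h2, ← h] at h1
  obtain ⟨π, hπ⟩ := exists_perm_of_sum_eq _ _ h1.symm
  unfold Fhat
  rw [← hπ]
  exact hsym π u z

/-! ### Iterated merging differences -/

/-- Iterated merging differences. -/
def diff {V : Type} [Add V] (G : Multiset V → ℂ) : List (V × V) → Multiset V → ℂ
  | [], μ => G μ
  | p :: D, μ => diff G D (p.1 ::ₘ p.2 ::ₘ μ) - diff G D ((p.1 + p.2) ::ₘ μ)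

/-- A pair of blocks, merged or not. -/
def piece {V : Type} [Add V] (p : V × V) (b : Bool) : Multiset V :=
  if b then {p.1 + p.2} else {p.1, p.2}

theorem diff_expand {V : Type} [Add V] (G : Multiset V → ℂ) (D : List (V × V)) :
    ∀ μ : Multiset V, diff G D μ =
      ∑ g : Fin D.length → Bool, sgn g * G ((∑ j, piece (D.get j) (g j)) + μ) := by
  induction D with
  | nil =>
    intro μ
    simp [diff, sgn]
  | cons p D ih =>
    intro μ
    rw [diff, ih, ih]
    change _ = ∑ g : Fin (D.length + 1) → Bool, _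
    rw [← (Fin.consEquiv fun _ : Fin (D.length + 1) => Bool).sum_comp, Fintype.sum_prod_type]
    simp only [Fintype.sum_bool, Fin.consEquiv_apply]
    have hs : ∀ (b : Bool) (g : Fin D.length → Bool),
        sgn (Fin.cons b g : Fin (D.length + 1) → Bool) = (if b then -1 else 1) * sgn g := by
      intro b g
      simp only [sgn, Fin.prod_univ_succ, Fin.cons_zero, Fin.cons_succ]
    have hp : ∀ (b : Bool) (g : Fin D.length → Bool),
        (∑ j : Fin (D.length + 1), piece ((p :: D).get j)
          ((Fin.cons b g : Fin (D.length + 1) → Bool) j)) + μ =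
        (∑ j, piece (D.get j) (g j)) + (piece p b + μ) := by
      intro b g
      rw [Fin.sum_univ_succ]
      simp only [Fin.cons_zero, Fin.cons_succ, List.get_cons_zero]
      rw [add_comm (piece p b), add_assoc]
      rfl
    rw [sub_eq_add_neg, add_comm, ← Finset.sum_neg_distrib]
    congr 1
    · refine Finset.sum_congr rfl fun g _ => ?_
      refine Eq.trans ?_ (congrArg₂ (fun a b => a * G b) (hs true g) (hp true g)).symm
      simp [piece]
    · refine Finset.sum_congr rfl fun g _ => ?_
      refine Eq.trans ?_ (congrArg₂ (fun a b => a * G b) (hs false g) (hp false g)).symm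
      simp only [piece]
      simp

/-- The `m`-fold merging differences vanish. -/
theorem diff_eq_zero {N q : ℕ} {ι : Fin N × Fin q → σ} {f : MvPolynomial σ ℂ} {d r : ℕ}
    (hb : borderWaringRank d f ≤ r) (hsym : Invariant ι f) (z : σ → ℂ)
    (D : List ((Fin q → ℂ) × (Fin q → ℂ))) (μ : Multiset (Fin q → ℂ))
    (hm : r * (d + 1) < (N / 2).choose D.length) (hN : 2 * D.length + Multiset.card μ ≤ N) :
    diff (Fhat ι f z) D μ = 0 := by
  classical
  set m := D.length with hmdef
  have hcard : Fintype.card ((Fin m × Bool) ⊕ Fin (N - 2 * m)) = Fintype.card (Fin N) := by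
    simp
    omega
  let e : (Fin m × Bool) ⊕ Fin (N - 2 * m) ≃ Fin N := Fintype.equivOfCardEq hcard
  have hk := kill ι hb hsym hm (fun j => (D.get j).1) (fun j => (D.get j).2)
    (fun k => μ.toList.getD k 0) z e
  rw [diff_expand, ← hk]
  refine Finset.sum_congr rfl fun g _ => ?_
  congr 1
  have hsum : ∑ i, ({(merged (fun j => (D.get j).1) (fun j => (D.get j).2)
      (fun k : Fin (N - 2 * m) => μ.toList.getD k 0) g ∘ e.symm) i} : Multiset (Fin q → ℂ)) =
      ((∑ j, piece (D.get j) (g j)) + μ) +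
        ((∑ j, if g j then 1 else 0) + (N - 2 * m - Multiset.card μ)) • {0} := by
    simp only [Function.comp_apply]
    rw [e.symm.sum_comp (fun w => ({merged (fun j => (D.get j).1) (fun j => (D.get j).2)
      (fun k : Fin (N - 2 * m) => μ.toList.getD k 0) g w} : Multiset (Fin q → ℂ)))]
    rw [Fintype.sum_sum_type, Fintype.sum_prod_type]
    simp only [Fintype.sum_bool, merged]
    have h1 := sum_getD μ.toList (N - 2 * m) (by rw [Multiset.length_toList]; omega)
    rw [Multiset.coe_toList, Multiset.length_toList] at h1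
    rw [h1, add_smul, Finset.sum_smul]
    have h2 : ∀ j : Fin m, ({if g j = true then 0 else (D.get j).2} +
        {if g j = true then (D.get j).1 + (D.get j).2 else (D.get j).1} : Multiset (Fin q → ℂ)) =
        piece (D.get j) (g j) + (if g j = true then 1 else 0) • {0} := by
      intro j
      cases g j
      · simp only [piece, Bool.false_eq_true, if_false, zero_smul, add_zero]
        rw [add_comm]
        rfl
      · simp only [piece, if_true, one_smul]
        rw [add_comm]
    rw [Finset.sum_congr rfl fun j _ => h2 j, Finset.sum_add_distrib]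
    abel
  exact Fhat_eq hsym z hsum

/-! ### Functions that are sums of few powers of linear functionals -/

/-- `G` is a sum of `c` many `d`-th powers of linear functionals. -/
def HasW (d c : ℕ) (G : (σ → ℂ) → ℂ) : Prop :=
  ∃ φ : Fin c → (σ → ℂ) →ₗ[ℂ] ℂ, ∀ x, G x = ∑ i, φ i x ^ d

omit [Fintype σ] in
theorem hasW_fintype {T : Type} [Fintype T] {d : ℕ} {G : (σ → ℂ) → ℂ}
    (φ : T → (σ → ℂ) →ₗ[ℂ] ℂ) (h : ∀ x, G x = ∑ t, φ t x ^ d) : HasW d (Fintype.card T) G := by
  refine ⟨fun i => φ ((Fintype.equivFin T).symm i), fun x => ?_⟩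
  rw [h]
  exact (Equiv.sum_comp (Fintype.equivFin T).symm fun t => φ t x ^ d).symm

omit [Fintype σ] in
theorem HasW.add {d c c' : ℕ} {G G' : (σ → ℂ) → ℂ} (h : HasW d c G) (h' : HasW d c' G') :
    HasW d (c + c') (fun x => G x + G' x) := by
  obtain ⟨φ, hφ⟩ := h
  obtain ⟨φ', hφ'⟩ := h'
  have := hasW_fintype (T := Fin c ⊕ Fin c') (d := d) (G := fun x => G x + G' x)
    (Sum.elim φ φ') (by intro x; simp [hφ, hφ'])
  simpa using this

omit [Fintype σ] in
theorem HasW.neg {d c : ℕ} (hd : d ≠ 0) {G : (σ → ℂ) → ℂ} (h : HasW d c G) :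
    HasW d c (fun x => - G x) := by
  obtain ⟨φ, hφ⟩ := h
  obtain ⟨w, hw⟩ := IsAlgClosed.exists_pow_nat_eq (-1 : ℂ) (Nat.pos_of_ne_zero hd)
  refine ⟨fun i => w • φ i, fun x => ?_⟩
  simp only [LinearMap.smul_apply, smul_eq_mul, mul_pow, hw, hφ, ← Finset.sum_neg_distrib]
  refine Finset.sum_congr rfl fun i _ => ?_
  ring

omit [Fintype σ] in
theorem HasW.sub {d c c' : ℕ} (hd : d ≠ 0) {G G' : (σ → ℂ) → ℂ} (h : HasW d c G)
    (h' : HasW d c' G') : HasW d (c + c') (fun x => G x - G' x) := by
  simpa only [sub_eq_add_neg] using h.add (h'.neg hd)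

omit [Fintype σ] in
theorem hasW_zero {d : ℕ} : HasW d 0 (fun _ : σ → ℂ => (0 : ℂ)) :=
  ⟨fun i => Fin.elim0 i, fun x => by simp⟩

omit [Fintype σ] in
theorem HasW.mono {d c c' : ℕ} (hd : d ≠ 0) {G : (σ → ℂ) → ℂ} (h : HasW d c G) (hc : c ≤ c') :
    HasW d c' G := by
  obtain ⟨k, rfl⟩ := Nat.exists_eq_add_of_le hc
  have h0 : HasW d k (fun _ : σ → ℂ => (0 : ℂ)) := ⟨fun _ => 0, fun x => by simp [hd]⟩
  simpa using h.add h0

theorem hasW_iff {d c : ℕ} {f : MvPolynomial σ ℂ} :
    IsSumOfPowers d c f ↔ HasW d c (fun x => eval x f) := by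
  classical
  constructor
  · rintro ⟨a, rfl⟩
    refine ⟨fun i => ∑ s, a i s • LinearMap.proj s, fun x => ?_⟩
    simp [eval_linForm]
  · rintro ⟨φ, hφ⟩
    refine ⟨fun i s => φ i (fun j => if s = j then 1 else 0), ?_⟩
    apply MvPolynomial.funext
    intro x
    have h1 : eval x f = ∑ i, φ i x ^ d := hφ x
    rw [h1, map_sum]
    refine Finset.sum_congr rfl fun i _ => ?_
    rw [map_pow, eval_linForm]
    congr 1
    conv_lhs => rw [LinearMap.pi_apply_eq_sum_univ (φ i) x]
    refine Finset.sum_congr rfl fun s _ => ?_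
    rw [smul_eq_mul, mul_comm]

/-! ### The recursion -/

/-- The iterated difference of `f`, as a function of the point, at lists of linear maps. -/
noncomputable def Psi {N q : ℕ} (ι : Fin N × Fin q → σ) (f : MvPolynomial σ ℂ)
    (D : List (((σ → ℂ) →ₗ[ℂ] (Fin q → ℂ)) × ((σ → ℂ) →ₗ[ℂ] (Fin q → ℂ))))
    (l : List ((σ → ℂ) →ₗ[ℂ] (Fin q → ℂ))) (x : σ → ℂ) : ℂ :=
  diff (Fhat ι f x) (D.map fun p => (p.1 x, p.2 x)) ((l.map fun L => L x : List (Fin q → ℂ)) : Multiset (Fin q → ℂ))

omit [Fintype σ] in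
theorem Psi_cons {N q : ℕ} (ι : Fin N × Fin q → σ) (f : MvPolynomial σ ℂ)
    (D : List (((σ → ℂ) →ₗ[ℂ] (Fin q → ℂ)) × ((σ → ℂ) →ₗ[ℂ] (Fin q → ℂ))))
    (l : List ((σ → ℂ) →ₗ[ℂ] (Fin q → ℂ))) (s t : (σ → ℂ) →ₗ[ℂ] (Fin q → ℂ)) (x : σ → ℂ) :
    Psi ι f ((s, t) :: D) l x = Psi ι f D (s :: t :: l) x - Psi ι f D ((s + t) :: l) x := by
  simp only [Psi, List.map_cons, diff]
  rfl

omit [Fintype σ] in
theorem Psi_leaf {N q : ℕ} {ι : Fin N × Fin q → σ} {f : MvPolynomial σ ℂ} {d m C : ℕ}
    (hd : d ≠ 0) (hleaf : ∀ l : List ((σ → ℂ) →ₗ[ℂ] (Fin q → ℂ)), l.length < 2 * m →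
      HasW d C (Psi ι f [] l))
    (D : List (((σ → ℂ) →ₗ[ℂ] (Fin q → ℂ)) × ((σ → ℂ) →ₗ[ℂ] (Fin q → ℂ)))) :
    ∀ l, 2 * D.length + l.length < 2 * m → HasW d (2 ^ D.length * C) (Psi ι f D l) := by
  induction D with
  | nil =>
    intro l hl
    simpa using hleaf l (by simpa using hl)
  | cons p D ih =>
    intro l hl
    simp only [List.length_cons] at hl
    have h1 := ih (p.1 :: p.2 :: l) (by simp only [List.length_cons]; omega)
    have h2 := ih ((p.1 + p.2) :: l) (by simp only [List.length_cons]; omega)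
    have h3 := h1.sub hd h2
    have h4 : 2 ^ D.length * C + 2 ^ D.length * C = 2 ^ (p :: D).length * C := by
      rw [List.length_cons, pow_succ]; ring
    rw [h4] at h3
    convert h3 using 2 with x
    exact Psi_cons ι f D l p.1 p.2 x

theorem Psi_rec {N q : ℕ} {ι : Fin N × Fin q → σ} {f : MvPolynomial σ ℂ} {d m r C : ℕ}
    (hd : d ≠ 0) (hb : borderWaringRank d f ≤ r) (hsym : Invariant ι f)
    (hm : r * (d + 1) < (N / 2).choose m)
    (hleaf : ∀ l : List ((σ → ℂ) →ₗ[ℂ] (Fin q → ℂ)), l.length < 2 * m →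
      HasW d C (Psi ι f [] l)) (n : ℕ) :
    ∀ (k : ℕ) (D : List (((σ → ℂ) →ₗ[ℂ] (Fin q → ℂ)) × ((σ → ℂ) →ₗ[ℂ] (Fin q → ℂ))))
      (l : List ((σ → ℂ) →ₗ[ℂ] (Fin q → ℂ))), l.length = n → D.length + k = m →
      2 * D.length + l.length ≤ N →
      HasW d (if k = 0 then 0 else 2 ^ (m - 1) * C * (n + 1) ^ (k - 1)) (Psi ι f D l) := by
  induction n using Nat.strong_induction_on with
  | _ n ih =>
    intro k D l hn hk hN
    rcases Nat.eq_zero_or_pos k with hk0 | hk0
    · subst hk0
      rw [if_pos rfl]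
      have h0 : Psi ι f D l = fun _ => 0 := by
        funext x
        apply diff_eq_zero hb hsym
        · rw [List.length_map]
          have : D.length = m := by omega
          rw [this]; exact hm
        · simpa using hN
      rw [h0]
      exact hasW_zero
    · rw [if_neg (by omega)]
      have hD : D.length ≤ m - 1 := by omega
      match l, hn, hN with
      | [], hn, hN =>
        refine (Psi_leaf hd hleaf D [] (by simp; omega)).mono hd ?_
        have h1 : 2 ^ D.length ≤ 2 ^ (m - 1) := Nat.pow_le_pow_right (by norm_num) hD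
        calc 2 ^ D.length * C ≤ 2 ^ (m - 1) * C := Nat.mul_le_mul_right _ h1
          _ ≤ 2 ^ (m - 1) * C * (n + 1) ^ (k - 1) := Nat.le_mul_of_pos_right _ (by positivity)
      | [s], hn, hN =>
        refine (Psi_leaf hd hleaf D [s] (by simp; omega)).mono hd ?_
        have h1 : 2 ^ D.length ≤ 2 ^ (m - 1) := Nat.pow_le_pow_right (by norm_num) hD
        calc 2 ^ D.length * C ≤ 2 ^ (m - 1) * C := Nat.mul_le_mul_right _ h1
          _ ≤ 2 ^ (m - 1) * C * (n + 1) ^ (k - 1) := Nat.le_mul_of_pos_right _ (by positivity)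
      | s :: t :: l, hn, hN =>
        simp only [List.length_cons] at hn hN
        have h1 := ih (n - 1) (by omega) k D ((s + t) :: l) (by simp only [List.length_cons]; omega)
          hk (by simp only [List.length_cons]; omega)
        have h2 := ih (n - 2) (by omega) (k - 1) ((s, t) :: D) l (by omega)
          (by simp only [List.length_cons]; omega) (by simp only [List.length_cons]; omega)
        rw [if_neg (by omega : ¬ k = 0)] at h1
        have h3 := h1.add h2
        have h4 : (fun x => Psi ι f D ((s + t) :: l) x + Psi ι f ((s, t) :: D) l x) =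
            Psi ι f D (s :: t :: l) := by
          funext x
          rw [Psi_cons]; ring
        rw [h4] at h3
        refine h3.mono hd ?_
        obtain ⟨n', rfl⟩ : ∃ n', n = n' + 2 := ⟨l.length, by omega⟩
        rcases Nat.eq_or_lt_of_le (Nat.succ_le_of_lt hk0) with hk1 | hk1
        · have : k = 1 := by omega
          subst this
          simp
        · rw [if_neg (by omega)]
          obtain ⟨k', rfl⟩ : ∃ k', k = k' + 2 := ⟨k - 2, by omega⟩
          have h5 : (n' + 2 - 1 + 1) = n' + 2 := by omega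
          have h6 : (n' + 2 - 2 + 1) = n' + 1 := by omega
          rw [h5, h6]
          have h7 : k' + 2 - 1 = k' + 1 := by omega
          have h8 : k' + 1 - 1 = k' := by omega
          rw [h7, h8, ← Nat.mul_add]
          apply Nat.mul_le_mul_left
          have h9 : (n' + 2) ^ k' ≤ (n' + 2 + 1) ^ k' := Nat.pow_le_pow_left (by omega) _
          have h10 : (n' + 1) ^ k' ≤ (n' + 2 + 1) ^ k' := Nat.pow_le_pow_left (by omega) _
          calc (n' + 2) ^ (k' + 1) + (n' + 1) ^ k' = (n' + 2) * (n' + 2) ^ k' + (n' + 1) ^ k' := by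
                ring
            _ ≤ (n' + 2) * (n' + 2 + 1) ^ k' + (n' + 2 + 1) ^ k' :=
                Nat.add_le_add (Nat.mul_le_mul_left _ h9) h10
            _ = (n' + 2 + 1) ^ (k' + 1) := by ring

/-- Setting the variables in `Z` to zero. -/
noncomputable def restrict (Z : Set σ) (f : MvPolynomial σ ℂ) : MvPolynomial σ ℂ := by
  classical
  exact bind₁ (fun s => if s ∈ Z then 0 else X s) f

omit [Fintype σ] in
theorem eval_restrict (Z : Set σ) (f : MvPolynomial σ ℂ) (x : σ → ℂ) (w : σ → ℂ)
    (h0 : ∀ s ∈ Z, w s = 0) (h1 : ∀ s ∉ Z, w s = x s) :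
    eval x (restrict Z f) = eval w f := by
  classical
  unfold restrict
  have h2 := MvPolynomial.eval₂Hom_bind₁ (RingHom.id ℂ) x
    (fun s => if s ∈ Z then (0 : MvPolynomial σ ℂ) else X s) f
  have h3 : (fun s => eval₂Hom (RingHom.id ℂ) x (if s ∈ Z then (0 : MvPolynomial σ ℂ) else X s)) =
      w := by
    funext s
    by_cases hs : s ∈ Z
    · simp [hs, h0 s hs]
    · simp [hs, h1 s hs]
  rw [h3] at h2
  exact h2

/-- The variables in the blocks with index at least `K`. -/
def highBlocks {N q : ℕ} (ι : Fin N × Fin q → σ) (K : ℕ) : Set σ :=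
  {s | ∃ i : Fin N, K ≤ (i : ℕ) ∧ ∃ κ, s = ι (i, κ)}

omit [Fintype σ] in
theorem put_apply {N q : ℕ} {ι : Fin N × Fin q → σ} (hι : Function.Injective ι)
    (u : Fin N → Fin q → ℂ) (z : σ → ℂ) (i : Fin N) (κ : Fin q) :
    put ι u z (ι (i, κ)) = u i κ :=
  hι.extend_apply _ _ (i, κ)

omit [Fintype σ] in
theorem put_self {N q : ℕ} {ι : Fin N × Fin q → σ} (x : σ → ℂ) :
    put ι (fun i κ => x (ι (i, κ))) x = x := by
  classical
  funext s
  simp only [put, Function.extend]
  split_ifs with h
  · exact congrArg x (Classical.choose_spec h)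
  · rfl

/-- **Reduction of one group of blocks.** -/
theorem one_group {N q : ℕ} {ι : Fin N × Fin q → σ} (hι : Function.Injective ι)
    {f : MvPolynomial σ ℂ} {d m r C : ℕ} (hd : d ≠ 0) (hb : borderWaringRank d f ≤ r)
    (hsym : Invariant ι f) (hm : r * (d + 1) < (N / 2).choose m) (hm1 : 1 ≤ m)
    (hC : IsSumOfPowers d C (restrict (highBlocks ι (2 * m - 1)) f)) :
    IsSumOfPowers d (2 ^ (m - 1) * C * (N + 1) ^ (m - 1)) f := by
  classical
  have hmN : m ≤ N / 2 := by
    by_contra hcon
    rw [Nat.choose_eq_zero_of_lt (by omega)] at hm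
    omega
  -- the value of `Psi` at the empty list of differences
  have hPsi : ∀ (l : List ((σ → ℂ) →ₗ[ℂ] (Fin q → ℂ))), l.length ≤ N → ∀ x,
      Psi ι f [] l x = eval (put ι (fun i => (l.getD i 0) x) x) f := by
    intro l hl x
    have h1 := sum_getD (l.map fun L => L x) N (by simpa using hl)
    have h2 : ∀ i : Fin N, (l.map fun L => L x).getD i 0 = (l.getD i 0) x := by
      intro i
      rw [List.getD_eq_getElem?_getD, List.getD_eq_getElem?_getD, List.getElem?_map]
      cases l[(i : ℕ)]? <;> simp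
    simp only [h2] at h1
    exact Fhat_eq hsym x h1
  have hleaf : ∀ l : List ((σ → ℂ) →ₗ[ℂ] (Fin q → ℂ)), l.length < 2 * m →
      HasW d C (Psi ι f [] l) := by
    intro l hl
    let T : (σ → ℂ) →ₗ[ℂ] (σ → ℂ) :=
      { toFun := fun x => put ι (fun i => (l.getD i 0) x) x
        map_add' := fun x y => by
          have : (fun i : Fin N => (l.getD i 0) (x + y)) =
              (fun i : Fin N => (l.getD i 0) x) + (fun i : Fin N => (l.getD i 0) y) := by
            funext i; simp
          rw [this, put_add]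
        map_smul' := fun c x => by
          have : (fun i : Fin N => (l.getD i 0) (c • x)) =
              c • (fun i : Fin N => (l.getD i 0) x) := by
            funext i; simp
          rw [this, put_smul]; rfl }
    obtain ⟨φ, hφ⟩ := hasW_iff.1 hC
    refine ⟨fun i => φ i ∘ₗ T, fun x => ?_⟩
    rw [hPsi l (by omega) x]
    have h3 : eval (T x) (restrict (highBlocks ι (2 * m - 1)) f) = eval (T x) f := by
      apply eval_restrict
      · rintro s ⟨i, hi, κ, rfl⟩
        have : l.getD (i : ℕ) 0 = 0 := List.getD_eq_default _ _ (by omega)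
        change put ι (fun i => (l.getD i 0) x) x (ι (i, κ)) = 0
        rw [put_apply hι, this]
        rfl
      · intro s _
        rfl
    have h4 := hφ (T x)
    simp only [h3] at h4
    exact h4
  -- the starting list
  let L : Fin N → ((σ → ℂ) →ₗ[ℂ] (Fin q → ℂ)) := fun i =>
    LinearMap.pi fun κ => LinearMap.proj (ι (i, κ))
  have hrec := Psi_rec hd hb hsym hm hleaf N m [] (List.ofFn L) (by simp) (by simp) (by simp)
  rw [if_neg (by omega)] at hrec
  rw [hasW_iff]
  convert hrec using 2 with x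
  rw [hPsi _ (by simp)]
  congr 2
  have h5 : (fun i : Fin N => ((List.ofFn L).getD i 0) x) = fun i κ => x (ι (i, κ)) := by
    funext i κ
    have : (List.ofFn L).getD (i : ℕ) 0 = L i := by
      rw [List.getD_eq_getElem _ _ (by simp)]
      simp
    rw [this]
    rfl
  rw [h5, put_self]

end Pool.Agent.Lib.MP_00289a_lc_h67
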