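import Pool.Agent.Lib.MP_00289a_lc_h67.Defs

open MvPolynomial Filter Topology

namespace Pool.Agent.Lib.MP_00289a_lc_h67

variable {σ : Type} [Fintype σ]

theorem linForm_smul (c : ℂ) (a : σ → ℂ) : linForm (c • a) = c • linForm a := by
  simp [linForm, Finset.smul_sum, smul_smul]

theorem eval_linForm (a x : σ → ℂ) : eval x (linForm a) = ∑ s, a s * x s := by
  simp [linForm, smul_eval]

omit [Fintype σ] in
theorem degree_of_coeff_ne {d : ℕ} {f : MvPolynomial σ ℂ} (hf : f.IsHomogeneous d) {α : σ →₀ ℕ}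
    (h : coeff α f ≠ 0) : α.degree = d := by
  have h1 := hf h
  rw [← h1, Finsupp.degree_eq_weight_one]
  rfl

theorem isHomogeneous_linForm (a : σ → ℂ) : (linForm a).IsHomogeneous 1 := by
  unfold linForm
  apply IsHomogeneous.sum
  intro s _
  rw [smul_eq_C_mul]
  simpa using (isHomogeneous_C σ (a s)).mul (isHomogeneous_X ℂ s)

theorem isHomogeneous_linForm_pow (a : σ → ℂ) (d : ℕ) : (linForm a ^ d).IsHomogeneous d := by
  simpa using (isHomogeneous_linForm a).pow d

theorem IsSumOfPowers.isHomogeneous {d r : ℕ} {f : MvPolynomial σ ℂ} (h : IsSumOfPowers d r f) :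
    f.IsHomogeneous d := by
  obtain ⟨a, rfl⟩ := h
  exact IsHomogeneous.sum _ _ _ fun i _ => isHomogeneous_linForm_pow _ _

theorem isSumOfPowers_fintype {T : Type} [Fintype T] {d : ℕ} (a : T → σ → ℂ)
    {f : MvPolynomial σ ℂ} (h : f = ∑ t, linForm (a t) ^ d) :
    IsSumOfPowers d (Fintype.card T) f := by
  refine ⟨fun i => a ((Fintype.equivFin T).symm i), ?_⟩
  rw [h]
  exact (Equiv.sum_comp (Fintype.equivFin T).symm fun t => linForm (a t) ^ d).symm

theorem isSumOfPowers_weights {T : Type} [Fintype T] {d : ℕ} (hd : d ≠ 0) (a : T → σ → ℂ)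
    (w : T → ℂ) {f : MvPolynomial σ ℂ} (h : f = ∑ t, w t • linForm (a t) ^ d) :
    IsSumOfPowers d (Fintype.card T) f := by
  have hv : ∀ t, ∃ v : ℂ, v ^ d = w t := fun t =>
    IsAlgClosed.exists_pow_nat_eq (w t) (Nat.pos_of_ne_zero hd)
  choose v hv using hv
  apply isSumOfPowers_fintype (fun t => v t • a t)
  rw [h]
  refine Finset.sum_congr rfl fun t _ => ?_
  rw [linForm_smul, smul_pow, hv]

theorem waringRank_le {d r : ℕ} {f : MvPolynomial σ ℂ} (h : IsSumOfPowers d r f) :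
    waringRank d f ≤ r := iInf₂_le r h

theorem exists_of_waringRank_le {d r : ℕ} {f : MvPolynomial σ ℂ} (h : waringRank d f ≤ r) :
    ∃ r' ≤ r, IsSumOfPowers d r' f := by
  by_contra hcon
  push Not at hcon
  have h1 : ((r + 1 : ℕ) : ℕ∞) ≤ waringRank d f := by
    refine le_iInf₂ fun r' hr' => ?_
    have : ¬ r' ≤ r := fun h' => hcon r' h' hr'
    exact_mod_cast (by omega : r + 1 ≤ r')
  have h2 := h1.trans h
  have h3 : r + 1 ≤ r := by exact_mod_cast h2
  omega

theorem waringRank_add {d r s : ℕ} {f g : MvPolynomial σ ℂ} (hf : IsSumOfPowers d r f)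
    (hg : IsSumOfPowers d s g) : IsSumOfPowers d (r + s) (f + g) := by
  obtain ⟨a, rfl⟩ := hf
  obtain ⟨b, rfl⟩ := hg
  have := isSumOfPowers_fintype (T := Fin r ⊕ Fin s) (d := d) (Sum.elim a b)
    (f := (∑ i, linForm (a i) ^ d) + ∑ i, linForm (b i) ^ d) (by simp)
  simpa using this

/-- Monotonicity for positive degree. -/
theorem IsSumOfPowers.mono {d r s : ℕ} (hd : d ≠ 0) {f : MvPolynomial σ ℂ}
    (hf : IsSumOfPowers d r f) (h : r ≤ s) : IsSumOfPowers d s f := by
  obtain ⟨k, rfl⟩ := Nat.exists_eq_add_of_le h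
  have h0 : IsSumOfPowers d k (0 : MvPolynomial σ ℂ) :=
    ⟨fun _ => 0, by simp [linForm, hd]⟩
  simpa using waringRank_add hf h0

theorem isSumOfPowers_sum {T : Type} (S : Finset T) {d : ℕ} (r : T → ℕ)
    (f : T → MvPolynomial σ ℂ) (h : ∀ t ∈ S, IsSumOfPowers d (r t) (f t)) :
    IsSumOfPowers d (∑ t ∈ S, r t) (∑ t ∈ S, f t) := by
  classical
  induction S using Finset.induction_on with
  | empty => exact ⟨fun i => Fin.elim0 i, by simp⟩
  | insert t S ht ih =>
    rw [Finset.sum_insert ht, Finset.sum_insert ht]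
    exact waringRank_add (h t (Finset.mem_insert_self _ _))
      (ih fun t' ht' => h t' (Finset.mem_insert_of_mem ht'))

theorem coeff_linForm_pow (a : σ → ℂ) (α : σ →₀ ℕ) (d : ℕ) :
    coeff α (linForm a ^ d) = if α.degree = d then (α.multinomial : ℂ) * ∏ s, a s ^ α s else 0 := by
  rw [linForm, coeff_linearCombination_X_pow_of_fintype]
  have h1 : (α.sum fun _ m => m) = α.degree := by
    rw [Finsupp.degree_apply, Finsupp.sum]
  have h2 : (α.prod fun r m => a r ^ m) = ∏ s, a s ^ α s := Finsupp.prod_fintype _ _ (by simp)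
  rw [h1, h2]

omit [Fintype σ] in
theorem multinomial_ne_zero (α : σ →₀ ℕ) : (α.multinomial : ℂ) ≠ 0 := by
  have : α.multinomial ≠ 0 := by
    rw [Finsupp.multinomial_eq]
    exact (Nat.multinomial_pos _ _).ne'
  exact_mod_cast this

theorem sum_root_pow {m : ℕ} {ζ : ℂ} (hζ : IsPrimitiveRoot ζ m) (hm : m ≠ 0) (a b : ℕ) :
    ∑ j : Fin m, (ζ ^ (j : ℕ)) ^ a * ((ζ ^ (j : ℕ)) ^ b)⁻¹ = if a % m = b % m then (m : ℂ) else 0 := by
  have hz0 : ζ ≠ 0 := hζ.ne_zero hm
  set z : ℂ := ζ ^ a * (ζ ^ b)⁻¹ with hz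
  have h1 : ∀ j : Fin m, (ζ ^ (j : ℕ)) ^ a * ((ζ ^ (j : ℕ)) ^ b)⁻¹ = z ^ (j : ℕ) := by
    intro j
    rw [hz, mul_pow, inv_pow, ← pow_mul, ← pow_mul, ← pow_mul, ← pow_mul, mul_comm (j : ℕ) a,
      mul_comm (j : ℕ) b]
  rw [Finset.sum_congr rfl fun j _ => h1 j, Fin.sum_univ_eq_sum_range (fun j => z ^ j) m]
  have hzm : z ^ m = 1 := by
    rw [hz, mul_pow, inv_pow, ← pow_mul, ← pow_mul, mul_comm a m, mul_comm b m, pow_mul, pow_mul,
      hζ.pow_eq_one]
    simp
  have hiff : z = 1 ↔ a % m = b % m := by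
    rw [hz, mul_inv_eq_one₀ (pow_ne_zero _ hz0)]
    constructor
    · intro h
      have hmpos := Nat.pos_of_ne_zero hm
      refine hζ.pow_inj (Nat.mod_lt _ hmpos) (Nat.mod_lt _ hmpos) ?_
      rw [hζ.eq_orderOf, pow_mod_orderOf, pow_mod_orderOf, h]
    · intro h
      rw [← pow_mod_orderOf, ← pow_mod_orderOf ζ b, ← hζ.eq_orderOf, h]
  split_ifs with h
  · rw [hiff.2 h]; simp
  · have hz1 : z ≠ 1 := fun h' => h (hiff.1 h')
    have := geom_sum_eq hz1 m
    rw [this, hzm]; simp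

/-- A form in which the exponent of the variable `s` is always smaller than `m s` is a sum of
`∏ s, m s` powers of linear forms. -/
theorem isSumOfPowers_box {d : ℕ} (hd : d ≠ 0) (m : σ → ℕ) (f : MvPolynomial σ ℂ)
    (hf : f.IsHomogeneous d) (hm : ∀ α ∈ f.support, ∀ s, α s < m s) :
    IsSumOfPowers d (∏ s, m s) f := by
  classical
  by_cases hf0 : f = 0
  · subst hf0
    exact IsSumOfPowers.mono hd (r := 0) ⟨fun i => Fin.elim0 i, by simp⟩ (Nat.zero_le _)
  have hm0 : ∀ s, m s ≠ 0 := by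
    intro s
    obtain ⟨α, hα⟩ := MvPolynomial.support_nonempty.2 hf0
    have := hm α hα s
    omega
  have hζ : ∀ s, ∃ ζ : ℂ, IsPrimitiveRoot ζ (m s) := fun s =>
    ⟨_, Complex.isPrimitiveRoot_exp (m s) (hm0 s)⟩
  choose ζ hζ using hζ
  let T := (s : σ) → Fin (m s)
  have hT : Fintype.card T = ∏ s, m s := by simp [T]
  rw [← hT]
  let M : ℂ := ∏ s, (m s : ℂ)
  have hM : M ≠ 0 := Finset.prod_ne_zero_iff.2 fun s _ => by exact_mod_cast hm0 s
  refine isSumOfPowers_weights hd (fun (t : T) s => ζ s ^ (t s : ℕ))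
    (fun t => ∑ α ∈ f.support, coeff α f * (α.multinomial : ℂ)⁻¹ * M⁻¹ *
      ∏ s, ((ζ s ^ (t s : ℕ)) ^ α s)⁻¹) ?_
  ext β
  rw [coeff_sum]
  simp only [coeff_smul, coeff_linForm_pow, smul_eq_mul]
  by_cases hβ : β.degree = d
  · simp only [hβ, if_true]
    have key : ∀ α ∈ f.support, ∑ t : T, (∏ s, ((ζ s ^ (t s : ℕ)) ^ α s)⁻¹) *
        ∏ s, (ζ s ^ (t s : ℕ)) ^ β s = if α = β then M else 0 := by
      intro α hα
      have h1 : ∀ t : T, (∏ s, ((ζ s ^ (t s : ℕ)) ^ α s)⁻¹) * ∏ s, (ζ s ^ (t s : ℕ)) ^ β s =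
          ∏ s, ((ζ s ^ (t s : ℕ)) ^ β s * ((ζ s ^ (t s : ℕ)) ^ α s)⁻¹) := by
        intro t
        rw [Finset.prod_mul_distrib, mul_comm]
      rw [Finset.sum_congr rfl fun t _ => h1 t]
      have h2 := (Finset.prod_univ_sum (fun s : σ => (Finset.univ : Finset (Fin (m s))))
        (fun s j => (ζ s ^ (j : ℕ)) ^ β s * ((ζ s ^ (j : ℕ)) ^ α s)⁻¹))
      rw [Fintype.piFinset_univ] at h2
      rw [← h2]
      simp only [sum_root_pow (hζ _) (hm0 _)]
      split_ifs with hαβ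
      · subst hαβ; simp [M]
      · have : ∃ s, ¬ (β s % m s = α s % m s) := by
          by_contra hcon
          push Not at hcon
          apply hαβ
          have hle : ∀ s, α s ≤ β s := fun s => by
            have h3 := hcon s
            rw [Nat.mod_eq_of_lt (hm α hα s)] at h3
            rw [← h3]; exact Nat.mod_le _ _
          have hdα : α.degree = d := degree_of_coeff_ne hf (MvPolynomial.mem_support_iff.1 hα)
          have hsum : ∑ s, α s = ∑ s, β s := by
            rw [← Finsupp.degree_eq_sum, ← Finsupp.degree_eq_sum, hdα, hβ]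
          ext s
          exact ((Finset.sum_eq_sum_iff_of_le fun s _ => hle s).1 hsum) s (Finset.mem_univ s)
        obtain ⟨s, hs⟩ := this
        exact Finset.prod_eq_zero (Finset.mem_univ s) (if_neg hs)
    have step : ∀ t : T, (∑ α ∈ f.support, coeff α f * (α.multinomial : ℂ)⁻¹ * M⁻¹ *
        ∏ s, ((ζ s ^ (t s : ℕ)) ^ α s)⁻¹) * ((β.multinomial : ℂ) * ∏ s, (ζ s ^ (t s : ℕ)) ^ β s) =
        ∑ α ∈ f.support, coeff α f * (α.multinomial : ℂ)⁻¹ * M⁻¹ * (β.multinomial : ℂ) *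
          ((∏ s, ((ζ s ^ (t s : ℕ)) ^ α s)⁻¹) * ∏ s, (ζ s ^ (t s : ℕ)) ^ β s) := by
      intro t
      rw [Finset.sum_mul]
      refine Finset.sum_congr rfl fun α _ => ?_
      ring
    rw [Finset.sum_congr rfl fun t _ => step t, Finset.sum_comm]
    have step2 : ∀ α ∈ f.support, ∑ t : T, coeff α f * (α.multinomial : ℂ)⁻¹ * M⁻¹ *
        (β.multinomial : ℂ) *
          ((∏ s, ((ζ s ^ (t s : ℕ)) ^ α s)⁻¹) * ∏ s, (ζ s ^ (t s : ℕ)) ^ β s) =
        if α = β then coeff β f else 0 := by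
      intro α hα
      rw [← Finset.mul_sum, key α hα]
      split_ifs with h
      · subst h
        field_simp [multinomial_ne_zero α]
      · simp
    rw [Finset.sum_congr rfl step2, Finset.sum_ite_eq']
    split_ifs with h
    · rfl
    · exact MvPolynomial.notMem_support_iff.1 h
  · simp only [hβ, if_false, mul_zero, Finset.sum_const_zero]
    by_contra hne
    exact hβ (degree_of_coeff_ne hf hne)

end Pool.Agent.Lib.MP_00289a_lc_h67
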