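import Pool.Agent.Lib.MP_00289a_lc_h67.Powers

open MvPolynomial Filter Topology

namespace Pool.Agent.Lib.MP_00289a_lc_h67

variable {σ : Type} [Fintype σ]

theorem det_mul_eq_zero {U J : Type} [Fintype U] [DecidableEq U] [Fintype J]
    (A : Matrix U J ℂ) (B : Matrix J U ℂ) (h : Fintype.card J < Fintype.card U) :
    (A * B).det = 0 := by
  classical
  by_contra hne
  have h1 : IsUnit (A * B) := (Matrix.isUnit_iff_isUnit_det _).2 (isUnit_iff_ne_zero.2 hne)
  have h2 := Matrix.rank_of_isUnit _ h1
  have h3 := Matrix.rank_mul_le_left A B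
  have h4 := A.rank_le_card_width
  omega

/-- The data given by a bound on the border Waring rank. -/
theorem exists_of_borderWaringRank_le {d r : ℕ} {f : MvPolynomial σ ℂ}
    (h : borderWaringRank d f ≤ r) :
    ∃ g : ℕ → MvPolynomial σ ℂ, (∀ k, ∃ r' ≤ r, IsSumOfPowers d r' (g k)) ∧
      ∀ α, Tendsto (fun k => coeff α (g k)) atTop (𝓝 (coeff α f)) := by
  by_contra hcon
  have h1 : ((r + 1 : ℕ) : ℕ∞) ≤ borderWaringRank d f := by
    refine le_iInf₂ fun r' hr' => ?_
    have : ¬ r' ≤ r := by
      intro h'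
      apply hcon
      obtain ⟨g, hg, hlim⟩ := hr'
      refine ⟨g, fun k => ?_, hlim⟩
      obtain ⟨r'', hr'', h3⟩ := exists_of_waringRank_le (hg k).2
      exact ⟨r'', hr''.trans h', h3⟩
    exact_mod_cast (by omega : r + 1 ≤ r')
  have h2 := h1.trans h
  have h3 : r + 1 ≤ r := by exact_mod_cast h2
  omega

/-- Linear maps out of the forms of degree `d` are continuous for coefficientwise limits. -/
theorem tendsto_linear {d : ℕ} {E : Type} [AddCommGroup E] [Module ℂ E] (M : MvPolynomial σ ℂ →ₗ[ℂ] E)
    (φ : E →ₗ[ℂ] ℂ) {g : ℕ → MvPolynomial σ ℂ} {f : MvPolynomial σ ℂ}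
    (hg : ∀ k, (g k).IsHomogeneous d) (hf : f.IsHomogeneous d)
    (hlim : ∀ α, Tendsto (fun k => coeff α (g k)) atTop (𝓝 (coeff α f))) :
    Tendsto (fun k => φ (M (g k))) atTop (𝓝 (φ (M f))) := by
  classical
  set S : Finset (σ →₀ ℕ) := Finset.finsuppAntidiag Finset.univ d with hS
  have key : ∀ p : MvPolynomial σ ℂ, p.IsHomogeneous d →
      φ (M p) = ∑ α ∈ S, coeff α p * φ (M (monomial α 1)) := by
    intro p hp
    have h1 : p = ∑ α ∈ S, coeff α p • monomial α (1 : ℂ) := by
      conv_lhs => rw [p.as_sum]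
      have hsub : p.support ⊆ S := by
        intro α hα
        rw [hS, Finset.mem_finsuppAntidiag]
        refine ⟨?_, Finset.subset_univ _⟩
        rw [← Finsupp.degree_eq_sum]
        exact degree_of_coeff_ne hp (mem_support_iff.1 hα)
      rw [Finset.sum_subset hsub]
      · refine Finset.sum_congr rfl fun α _ => ?_
        rw [smul_monomial, smul_eq_mul, mul_one]
      · intro α _ hα
        rw [notMem_support_iff.1 hα, monomial_zero]
    conv_lhs => rw [h1]
    simp only [map_sum, map_smul, smul_eq_mul]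
  rw [key f hf]
  simp only [fun k => key (g k) (hg k)]
  exact tendsto_finsetSum _ fun α _ => (hlim α).mul_const _

omit [Fintype σ] in
/-- The limit of forms of degree `d` is a form of degree `d`. -/
theorem isHomogeneous_of_tendsto {d : ℕ} {g : ℕ → MvPolynomial σ ℂ} {f : MvPolynomial σ ℂ}
    (hg : ∀ k, (g k).IsHomogeneous d)
    (hlim : ∀ α, Tendsto (fun k => coeff α (g k)) atTop (𝓝 (coeff α f))) :
    f.IsHomogeneous d := by
  intro α hα
  by_contra hne
  apply hα
  have h1 : ∀ k, coeff α (g k) = 0 := fun k => by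
    by_contra h
    exact hne (hg k h)
  have h2 := hlim α
  simp only [h1] at h2
  exact (tendsto_nhds_unique h2 tendsto_const_nhds)

/-- The rank argument: a linear map `M` into matrices whose values on `d`-th powers of linear forms
factor through `K` has singular value at `f` as soon as the size of the matrices exceeds `|K|`
times the border Waring rank of `f`. -/
theorem det_eq_zero_of_border {U K : Type} [Fintype U] [DecidableEq U] [Fintype K] {d r : ℕ}
    {f : MvPolynomial σ ℂ} (hb : borderWaringRank d f ≤ r)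
    (M : MvPolynomial σ ℂ →ₗ[ℂ] Matrix U U ℂ)
    (hM : ∀ a : σ → ℂ, ∃ (P : Matrix U K ℂ) (Q : Matrix K U ℂ), M (linForm a ^ d) = P * Q)
    (hcard : r * Fintype.card K < Fintype.card U) : (M f).det = 0 := by
  obtain ⟨g, hg, hlim⟩ := exists_of_borderWaringRank_le hb
  have hhom : ∀ k, (g k).IsHomogeneous d := fun k => by
    obtain ⟨r', -, h⟩ := hg k
    exact h.isHomogeneous
  have hfhom := isHomogeneous_of_tendsto hhom hlim
  have hdet : ∀ k, (M (g k)).det = 0 := by
    intro k
    obtain ⟨r', hr', a, ha⟩ := hg k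
    choose P Q hPQ using hM
    have h1 : M (g k) = (Matrix.of fun u (j : Fin r' × K) => P (a j.1) u j.2) *
        (Matrix.of fun (j : Fin r' × K) u => Q (a j.1) j.2 u) := by
      rw [ha, map_sum]
      ext u v
      simp only [Matrix.mul_apply, Matrix.of_apply, Matrix.sum_apply, hPQ, Fintype.sum_prod_type]
    rw [h1]
    apply det_mul_eq_zero
    rw [Fintype.card_prod, Fintype.card_fin]
    exact (Nat.mul_le_mul_right _ hr').trans_lt hcard
  have hentry : ∀ u v, Tendsto (fun k => M (g k) u v) atTop (𝓝 (M f u v)) := by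
    intro u v
    exact tendsto_linear M (LinearMap.proj v ∘ₗ LinearMap.proj u : Matrix U U ℂ →ₗ[ℂ] ℂ) hhom hfhom hlim
  have hmat : Tendsto (fun k => M (g k)) atTop (𝓝 (M f)) := by
    refine tendsto_pi_nhds.2 fun u => tendsto_pi_nhds.2 fun v => hentry u v
  have hd : Tendsto (fun k => (M (g k)).det) atTop (𝓝 (M f).det) :=
    ((Continuous.matrix_det continuous_id).tendsto (M f)).comp hmat
  simp only [hdet] at hd
  exact (tendsto_nhds_unique hd tendsto_const_nhds)

end Pool.Agent.Lib.MP_00289a_lc_h67
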