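import Pool.Agent.Lib.MP_00289a_lc_h67.OneGroup

open MvPolynomial Filter Topology

namespace Pool.Agent.Lib.MP_00289a_lc_h67

variable {σ : Type} [Fintype σ]

omit [Fintype σ] in
theorem restrict_add (Z : Set σ) (f g : MvPolynomial σ ℂ) :
    restrict Z (f + g) = restrict Z f + restrict Z g := by
  simp [restrict]

omit [Fintype σ] in
theorem coeff_restrict (Z : Set σ) (f : MvPolynomial σ ℂ) (α : σ →₀ ℕ) [Decidable (∀ s ∈ Z, α s = 0)] :
    coeff α (restrict Z f) = if ∀ s ∈ Z, α s = 0 then coeff α f else 0 := by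
  classical
  induction f using MvPolynomial.induction_on' with
  | add p q hp hq =>
    rw [restrict_add, coeff_add, coeff_add, hp, hq]
    split_ifs <;> simp
  | monomial β c =>
    unfold restrict
    rw [bind₁_monomial]
    by_cases hβ : ∀ s ∈ Z, β s = 0
    · have h1 : ∏ i ∈ β.support, (if i ∈ Z then (0 : MvPolynomial σ ℂ) else X i) ^ β i =
          ∏ i ∈ β.support, X i ^ β i := by
        refine Finset.prod_congr rfl fun i hi => ?_
        have : i ∉ Z := fun h => (Finsupp.mem_support_iff.1 hi) (hβ i h)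
        rw [if_neg this]
      rw [h1]
      have h2 : C c * ∏ i ∈ β.support, (X i : MvPolynomial σ ℂ) ^ β i = monomial β c := by
        rw [monomial_eq]; rfl
      rw [h2, coeff_monomial]
      by_cases hαβ : β = α
      · subst hαβ
        simp only [if_true]
        rw [if_pos hβ]
      · rw [if_neg hαβ]
        simp
    · push Not at hβ
      obtain ⟨s, hs, hsβ⟩ := hβ
      have h1 : ∏ i ∈ β.support, (if i ∈ Z then (0 : MvPolynomial σ ℂ) else X i) ^ β i = 0 := by
        apply Finset.prod_eq_zero (Finsupp.mem_support_iff.2 hsβ)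
        rw [if_pos hs, zero_pow hsβ]
      rw [h1, mul_zero, coeff_zero, coeff_monomial]
      by_cases hαβ : β = α
      · subst hαβ
        rw [if_neg]
        intro h
        exact hsβ (h s hs)
      · rw [if_neg hαβ]
        simp

theorem isSumOfPowers_restrict (Z : Set σ) {d r : ℕ} {f : MvPolynomial σ ℂ}
    (h : IsSumOfPowers d r f) : IsSumOfPowers d r (restrict Z f) := by
  classical
  obtain ⟨a, rfl⟩ := h
  refine ⟨fun i s => if s ∈ Z then 0 else a i s, ?_⟩
  unfold restrict
  rw [map_sum]
  refine Finset.sum_congr rfl fun i _ => ?_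
  rw [map_pow]
  congr 1
  unfold linForm
  rw [map_sum]
  refine Finset.sum_congr rfl fun s _ => ?_
  rw [map_smul, bind₁_X_right]
  by_cases hs : s ∈ Z
  · simp [hs]
  · simp [hs]

theorem border_restrict (Z : Set σ) {d r : ℕ} {f : MvPolynomial σ ℂ}
    (h : borderWaringRank d f ≤ r) : borderWaringRank d (restrict Z f) ≤ r := by
  classical
  obtain ⟨g, hg, hlim⟩ := exists_of_borderWaringRank_le h
  refine iInf₂_le r ⟨fun k => restrict Z (g k), fun k => ?_, fun α => ?_⟩
  · obtain ⟨r', hr', h1⟩ := hg k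
    have h2 := isSumOfPowers_restrict Z h1
    exact ⟨h2.isHomogeneous, (waringRank_le h2).trans (by exact_mod_cast hr')⟩
  · simp only [coeff_restrict]
    split_ifs
    · exact hlim α
    · exact tendsto_const_nhds

theorem isHomogeneous_of_border {d r : ℕ} {f : MvPolynomial σ ℂ}
    (h : borderWaringRank d f ≤ r) : f.IsHomogeneous d := by
  obtain ⟨g, hg, hlim⟩ := exists_of_borderWaringRank_le h
  refine isHomogeneous_of_tendsto (fun k => ?_) hlim
  obtain ⟨r', -, h⟩ := hg k
  exact h.isHomogeneous

omit [Fintype σ] in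
theorem restrict_restrict (Z Z' : Set σ) (f : MvPolynomial σ ℂ) :
    restrict Z' (restrict Z f) = restrict (Z ∪ Z') f := by
  classical
  ext α
  rw [coeff_restrict, coeff_restrict, coeff_restrict]
  by_cases h1 : ∀ s ∈ Z', α s = 0
  · by_cases h2 : ∀ s ∈ Z, α s = 0
    · rw [if_pos h1, if_pos h2, if_pos]
      rintro s (hs | hs)
      · exact h2 s hs
      · exact h1 s hs
    · rw [if_pos h1, if_neg h2, if_neg]
      intro h3
      exact h2 fun s hs => h3 s (Or.inl hs)
  · rw [if_neg h1, if_neg]
    intro h3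
    exact h1 fun s hs => h3 s (Or.inr hs)

/-- The Waring rank in degree zero. -/
theorem waringRank_zero_le {r : ℕ} {f : MvPolynomial σ ℂ} (h : borderWaringRank 0 f ≤ r) :
    waringRank 0 f ≤ r := by
  classical
  obtain ⟨g, hg, hlim⟩ := exists_of_borderWaringRank_le h
  have hconst : ∀ k, ∃ r' ≤ r, g k = C (r' : ℂ) := by
    intro k
    obtain ⟨r', hr', a, ha⟩ := hg k
    refine ⟨r', hr', ?_⟩
    rw [ha]
    simp
  have hhom := isHomogeneous_of_border h
  let S : Set ℂ := (fun j : ℕ => (j : ℂ)) '' Set.Iic r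
  have hS : IsClosed S := ((Set.finite_Iic r).image _).isClosed
  have h1 : coeff 0 f ∈ S := by
    refine hS.mem_of_tendsto (hlim 0) (Eventually.of_forall fun k => ?_)
    obtain ⟨r', hr', hk⟩ := hconst k
    refine ⟨r', hr', ?_⟩
    rw [hk, coeff_C, if_pos rfl]
  obtain ⟨j, hj, hjf⟩ := h1
  have h2 : f = C (j : ℂ) := by
    ext α
    rw [coeff_C]
    split_ifs with h3
    · rw [← h3]; exact hjf.symm
    · by_contra hne
      have := degree_of_coeff_ne hhom hne
      apply h3
      exact ((Finsupp.degree_eq_zero_iff α).1 this).symm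
  have h3 : IsSumOfPowers 0 j f := ⟨fun _ _ => 0, by rw [h2]; simp⟩
  exact (waringRank_le h3).trans (by exact_mod_cast hj)

end Pool.Agent.Lib.MP_00289a_lc_h67
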