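import Pool.Agent.Lib.MP_00289a_lc_h67.Restrict
import Pool.Agent.Lib.MP_00289a_lc_h67.BlockDefs

open MvPolynomial Filter Topology

namespace Pool.Agent.Lib.MP_00289a_lc_h67

variable {σ : Type}

/-- the embedding of the group `g` -/
def grp {G q : ℕ} {N : Fin G → ℕ} (e : σ ≃ Σ g : Fin G, Fin (N g) × Fin q) (g : Fin G) :
    Fin (N g) × Fin q → σ := fun p => e.symm ⟨g, p⟩

theorem grp_injective {G q : ℕ} {N : Fin G → ℕ} (e : σ ≃ Σ g : Fin G, Fin (N g) × Fin q)
    (g : Fin G) : Function.Injective (grp e g) := by
  intro p p' h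
  have := e.symm.injective h
  simpa using this

theorem invariant_of_blockSymmetric {G q : ℕ} {N : Fin G → ℕ}
    {e : σ ≃ Σ g : Fin G, Fin (N g) × Fin q} {f : MvPolynomial σ ℂ} (hf : BlockSymmetric e f)
    (g : Fin G) : Invariant (grp e g) f := by
  classical
  intro π u z
  have h1 := hf (Function.update (fun _ => 1) g π)
  conv_rhs => rw [← h1]
  rw [eval_rename]
  congr 2
  funext s
  obtain ⟨⟨g', i, κ⟩, rfl⟩ := e.symm.surjective s
  by_cases hg : g' = g
  · subst hg
    have h2 : permBlocks e (Function.update (fun _ => 1) g' π) (e.symm ⟨g', (i, κ)⟩) =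
        grp e g' (π i, κ) := by
      simp [permBlocks, grp]
    rw [Function.comp_apply, h2, put_apply (grp_injective e g')]
    exact put_apply (grp_injective e g') _ _ i κ
  · have h2 : permBlocks e (Function.update (fun _ => 1) g π) (e.symm ⟨g', (i, κ)⟩) =
        e.symm ⟨g', (i, κ)⟩ := by
      simp [permBlocks, Function.update_of_ne hg]
    have h3 : ∀ u' : Fin (N g) → Fin q → ℂ, put (grp e g) u' z (e.symm ⟨g', (i, κ)⟩) =
        z (e.symm ⟨g', (i, κ)⟩) := by
      intro u'
      apply Function.extend_apply'
      rintro ⟨p, hp⟩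
      have := e.symm.injective hp
      simp only [Sigma.mk.injEq] at this
      exact hg this.1.symm
    rw [Function.comp_apply, h2, h3, h3]

theorem invariant_restrict {N q : ℕ} {ι : Fin N × Fin q → σ} {f : MvPolynomial σ ℂ}
    (hf : Invariant ι f) (Z : Set σ) (hZ : ∀ p, ι p ∉ Z) : Invariant ι (restrict Z f) := by
  classical
  intro π u z
  have key : ∀ u' : Fin N → Fin q → ℂ, eval (put ι u' z) (restrict Z f) =
      eval (put ι u' (fun s => if s ∈ Z then 0 else z s)) f := by
    intro u'
    apply eval_restrict
    · intro s hs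
      rw [put, Function.extend_apply', if_pos hs]
      rintro ⟨p, rfl⟩
      exact hZ p hs
    · intro s hs
      simp only [put, Function.extend]
      split_ifs <;> rfl
  rw [key, key]
  exact hf π u _

/-- The high blocks of the groups in `S`. -/
def highOf {G q : ℕ} {N : Fin G → ℕ} (e : σ ≃ Σ g : Fin G, Fin (N g) × Fin q) (K : ℕ)
    (S : Finset (Fin G)) : Set σ := {s | ∃ g ∈ S, s ∈ highBlocks (grp e g) K}

theorem highOf_insert {G q : ℕ} {N : Fin G → ℕ} (e : σ ≃ Σ g : Fin G, Fin (N g) × Fin q) (K : ℕ)
    (g : Fin G) (S : Finset (Fin G)) :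
    highOf e K (insert g S) = highOf e K S ∪ highBlocks (grp e g) K := by
  ext s
  simp only [highOf, Finset.mem_insert, Set.mem_ofPred_eq, Set.mem_union]
  constructor
  · rintro ⟨g', rfl | h, h'⟩
    · exact Or.inr h'
    · exact Or.inl ⟨g', h, h'⟩
  · rintro (⟨g', h, h'⟩ | h)
    · exact ⟨g', Or.inr h, h'⟩
    · exact ⟨g, Or.inl rfl, h⟩

theorem restrict_empty (f : MvPolynomial σ ℂ) (Z : Set σ) (hZ : Z = ∅) : restrict Z f = f := by
  classical
  ext α
  rw [coeff_restrict, if_pos]
  intro s hs
  rw [hZ] at hs
  exact absurd hs (Set.notMem_empty s)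

/-- **Explicit bound.** -/
theorem isSumOfPowers_of_blockSymmetric [Fintype σ] {G q : ℕ} {N : Fin G → ℕ}
    {e : σ ≃ Σ g : Fin G, Fin (N g) × Fin q} {f : MvPolynomial σ ℂ} (hf : BlockSymmetric e f)
    {d m r M : ℕ} (hd : d ≠ 0) (hb : borderWaringRank d f ≤ r) (hm1 : 1 ≤ m)
    (hm : ∀ g, N g < 2 * m ∨ r * (d + 1) < (N g / 2).choose m) (hM : ∀ g, N g ≤ M) :
    IsSumOfPowers d (((2 * (M + 1)) ^ (m - 1)) ^ G * (d + 1) ^ (q * G * (2 * m - 1))) f := by
  classical
  set c := (d + 1) ^ (q * G * (2 * m - 1)) with hc
  set K := 2 * m - 1 with hK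
  have hrest := fun Z : Set σ => border_restrict Z hb
  -- the fully restricted form
  have hbase : IsSumOfPowers d c (restrict (highOf e K Finset.univ) f) := by
    have h1 := isSumOfPowers_box hd
      (fun s => if s ∈ highOf e K Finset.univ then 1 else d + 1)
      (restrict (highOf e K Finset.univ) f) (isHomogeneous_of_border (hrest _)) (by
        intro α hα s
        have h2 := mem_support_iff.1 hα
        rw [coeff_restrict] at h2
        have h3 : ∀ s ∈ highOf e K Finset.univ, α s = 0 := by
          by_contra hcon
          rw [if_neg hcon] at h2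
          exact h2 rfl
        split_ifs with hs
        · rw [h3 s hs]; norm_num
        · have h4 := degree_of_coeff_ne (isHomogeneous_of_border (hrest _)) (mem_support_iff.1 hα)
          have h5 := Finsupp.le_degree s α
          omega)
    refine h1.mono hd ?_
    rw [Finset.prod_ite, Finset.prod_const_one, one_mul, Finset.prod_const, hc]
    apply Nat.pow_le_pow_right (by omega)
    -- count the low variables
    have hK0 : 0 < K := by omega
    let Θ : σ → Fin G × Fin K × Fin q := fun s =>
      ((e s).1, ((⟨((e s).2.1 : ℕ) % K, Nat.mod_lt _ hK0⟩ : Fin K), (e s).2.2))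
    have hinj : (Finset.univ.filter fun s => s ∉ highOf e K Finset.univ).card ≤
        Fintype.card (Fin G × Fin K × Fin q) := by
      refine (Finset.card_le_card_of_injOn (t := Finset.univ) Θ
        (fun _ _ => Finset.mem_univ _) ?_).trans (by rw [Finset.card_univ])
      intro s hs s' hs' heq
      have hlow : ∀ s, s ∉ highOf e K Finset.univ → ((e s).2.1 : ℕ) < K := by
        intro s hs
        by_contra hcon
        apply hs
        refine ⟨(e s).1, Finset.mem_univ _, (e s).2.1, by omega, (e s).2.2, ?_⟩
        simp [grp]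
      have h1 := hlow s (by simpa using hs)
      have h2 := hlow s' (by simpa using hs')
      apply e.injective
      simp only [Θ, Prod.mk.injEq, Fin.mk.injEq, Nat.mod_eq_of_lt h1, Nat.mod_eq_of_lt h2] at heq
      obtain ⟨ha, hb', hc'⟩ := heq
      rcases hes : e s with ⟨g, i, κ⟩
      rcases hes' : e s' with ⟨g', i', κ'⟩
      rw [hes, hes'] at ha hb' hc'
      simp only at ha hb' hc'
      subst ha
      subst hc'
      have : i = i' := Fin.ext hb'
      rw [this]
    refine hinj.trans ?_
    simp only [Fintype.card_prod, Fintype.card_fin]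
    apply le_of_eq; ring
  -- add the groups one after the other
  have hstep : ∀ T : Finset (Fin G), IsSumOfPowers d (((2 * (M + 1)) ^ (m - 1)) ^ T.card * c)
      (restrict (highOf e K (Finset.univ \ T)) f) := by
    intro T
    induction T using Finset.induction_on with
    | empty => simpa using hbase
    | insert g T hg ih =>
      have hset : Finset.univ \ T = insert g (Finset.univ \ insert g T) := by
        ext g'
        simp only [Finset.mem_sdiff, Finset.mem_univ, true_and, Finset.mem_insert]
        by_cases h : g' = g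
        · subst h; simp [hg]
        · simp [h]
      rw [hset, highOf_insert, ← restrict_restrict] at ih
      have hnot : ∀ p, grp e g p ∉ highOf e K (Finset.univ \ insert g T) := by
        rintro p ⟨g', hg', i, -, κ, h⟩
        have := e.symm.injective h
        simp only [Sigma.mk.injEq] at this
        have hgg : g = g' := this.1
        subst hgg
        simp at hg'
      have hinv := invariant_restrict (invariant_of_blockSymmetric hf g) _ hnot
      rw [Finset.card_insert_of_notMem hg]
      rcases hm g with hlt | hlt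
      · have hempty : highBlocks (grp e g) K = ∅ := by
          ext s
          simp only [highBlocks, Set.mem_ofPred_eq, Set.mem_empty_iff_false, iff_false]
          rintro ⟨i, hi, -⟩
          have := i.2
          omega
        rw [restrict_empty _ _ hempty] at ih
        refine ih.mono hd ?_
        apply Nat.mul_le_mul_right
        apply Nat.pow_le_pow_right (by positivity) (by omega)
      · have h1 := one_group (grp_injective e g) hd (hrest _) hinv hlt hm1 ih
        refine h1.mono hd ?_
        have h2 : (N g + 1) ^ (m - 1) ≤ (M + 1) ^ (m - 1) :=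
          Nat.pow_le_pow_left (by have := hM g; omega) _
        calc 2 ^ (m - 1) * (((2 * (M + 1)) ^ (m - 1)) ^ T.card * c) * (N g + 1) ^ (m - 1)
            ≤ 2 ^ (m - 1) * (((2 * (M + 1)) ^ (m - 1)) ^ T.card * c) * (M + 1) ^ (m - 1) :=
              Nat.mul_le_mul_left _ h2
          _ = ((2 * (M + 1)) ^ (m - 1)) ^ (T.card + 1) * c := by
              rw [pow_succ ((2 * (M + 1)) ^ (m - 1)), mul_pow 2 (M + 1)]; ring
  have hfin := hstep Finset.univ
  rw [Finset.sdiff_self] at hfin
  have hempty : highOf e K (∅ : Finset (Fin G)) = ∅ := by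
    ext s; simp [highOf]
  rw [restrict_empty _ _ hempty] at hfin
  simpa using hfin

end Pool.Agent.Lib.MP_00289a_lc_h67
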