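import Pool.Agent.Lib.MP_00289a_lc_h67.SymMain

/-!
# MP_00289a_lc: VWaring equals its border class on families with large symmetry

The definitions are in `Pool.Agent.Lib.MP_00289a_lc_h67.Defs` and
`Pool.Agent.Lib.MP_00289a_lc_h67.BlockDefs`.
-/

namespace Pool.Agent.Lib.MP_00289a_lc_h67.SymmetricFamilies

open Filter Pool.Agent.Lib.MP_00289a_lc_h67

/-- (1) Let `f` be a form of degree `d ≥ 1` of border Waring rank at most `r` whose variables are
divided into `G` groups, the group `g` consisting of `N g` blocks of `q` variables, and suppose that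
`f` is invariant under permutations of the blocks inside each group. If every group has fewer than
`2 * m` blocks or satisfies `r * (d + 1) < (N g / 2).choose m` then the Waring rank of `f` is at most
`(2 * (M + 1)) ^ ((m - 1) * G) * (d + 1) ^ (q * G * (2 * m - 1))`, where `M` bounds the `N g`.

(2) Hence a p-family whose forms have this symmetry, with the same `G` and `q ≥ 1` for all `n` and
with groups that have either at most `K` blocks or at least `n ^ (1 / K)` blocks, is in the border
class of VWaring if and only if it is in VWaring. -/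
theorem result :
    (∀ (σ : Type) [Fintype σ] (G q : ℕ) (N : Fin G → ℕ)
      (e : σ ≃ Σ g : Fin G, Fin (N g) × Fin q) (f : MvPolynomial σ ℂ), BlockSymmetric e f →
      ∀ d m r M : ℕ, 1 ≤ d → 1 ≤ m → borderWaringRank d f ≤ r →
        (∀ g, N g < 2 * m ∨ r * (d + 1) < (N g / 2).choose m) → (∀ g, N g ≤ M) →
        waringRank d f ≤
          (((2 * (M + 1)) ^ ((m - 1) * G) * (d + 1) ^ (q * G * (2 * m - 1)) : ℕ) : ℕ∞)) ∧
    ∀ (F : PFamily) (G q : ℕ) (_ : 1 ≤ q) (N : ℕ → Fin G → ℕ)
      (e : ∀ n, F.Var n ≃ Σ g : Fin G, Fin (N n g) × Fin q),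
      (∀ n, BlockSymmetric (e n) (F.form n)) →
      ∀ K : ℕ, (∀ᶠ n in atTop, ∀ g, N n g ≤ K ∨ n ≤ N n g ^ K) →
        (BorderVWaring F ↔ VWaring F) := by
  refine ⟨?_, ?_⟩
  · intro σ _ G q N e f hf d m r M hd hm1 hb hm hM
    have := isSumOfPowers_of_blockSymmetric hf (by omega) hb hm1 hm hM
    rw [← pow_mul] at this
    exact waringRank_le this
  · intro F G q hq N e hsym K hN
    exact ⟨vwaring_of_blockSymmetric F hq N e hsym K hN, border_of_vwaring F⟩

end Pool.Agent.Lib.MP_00289a_lc_h67.SymmetricFamilies
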